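import Pool.Agent.Lib.SX.Defs
import Pool.Agent.Lib.Saus.Kappa
import Pool.Agent.Lib.MP_36b0a5_gt.BM

/-!
# Brunn-Minkowski in the Euclidean space
-/

set_option autoImplicit false

open MeasureTheory Metric Set Filter Topology
open scoped Pointwise RealInnerProductSpace ENNReal

namespace Pool.Agent.SX

open Pool.Agent.Saus

/-- The volume of the image of a compact set under the identity from the Euclidean space. -/
theorem volume_ofLp {d : ℕ} {S : Set (E d)} (hS : IsCompact S) :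
    volume (WithLp.ofLp '' S : Set (Fin d → ℝ)) = volume S := by
  have hc : Continuous (WithLp.ofLp : E d → (Fin d → ℝ)) := PiLp.continuous_ofLp 2 _
  have h1 : MeasurableSet (WithLp.ofLp '' S : Set (Fin d → ℝ)) := (hS.image hc).measurableSet
  rw [← (PiLp.volume_preserving_ofLp (Fin d)).measure_preimage h1.nullMeasurableSet,
    Set.preimage_image_eq _ (WithLp.ofLp_injective 2)]

theorem bm_E {d : ℕ} (hd : 1 ≤ d) {A B : Set (E d)} (hA : IsCompact A) (hB : IsCompact B)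
    (hA' : A.Nonempty) (hB' : B.Nonempty) {s α β : ℝ} (hs0 : 0 < s) (hs1 : s < 1)
    (hα : 0 ≤ α) (hβ : 0 ≤ β) (h1 : ENNReal.ofReal (kappa d * α ^ d) ≤ volume A)
    (h2 : ENNReal.ofReal (kappa d * β ^ d) ≤ volume B) :
    ENNReal.ofReal (kappa d * ((1 - s) * α + s * β) ^ d) ≤ volume ((1 - s) • A + s • B) := by
  have hc : Continuous (WithLp.ofLp : E d → (Fin d → ℝ)) := PiLp.continuous_ofLp 2 _
  have hC : IsCompact ((1 - s) • A + s • B) := (hA.smul _).add (hB.smul _)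
  have h3 : (WithLp.ofLp '' ((1 - s) • A + s • B) : Set (Fin d → ℝ)) =
      (1 - s) • (WithLp.ofLp '' A : Set (Fin d → ℝ)) + s • (WithLp.ofLp '' B : Set (Fin d → ℝ)) := by
    ext z
    simp only [Set.mem_image, Set.mem_add, Set.mem_smul_set]
    constructor
    · rintro ⟨_, ⟨_, ⟨a, ha, rfl⟩, _, ⟨b, hb, rfl⟩, rfl⟩, rfl⟩
      exact ⟨_, ⟨_, ⟨a, ha, rfl⟩, rfl⟩, _, ⟨_, ⟨b, hb, rfl⟩, rfl⟩, rfl⟩
    · rintro ⟨_, ⟨_, ⟨a, ha, rfl⟩, rfl⟩, _, ⟨_, ⟨b, hb, rfl⟩, rfl⟩, rfl⟩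
      exact ⟨_, ⟨_, ⟨a, ha, rfl⟩, _, ⟨b, hb, rfl⟩, rfl⟩, rfl⟩
  have h4 := Pool.Agent.BM.bm_add (m := d) (by omega) hs0 hs1 (hA.image hc) (hB.image hc)
    (hA'.image _) (hB'.image _)
  rw [← h3, volume_ofLp hA, volume_ofLp hB, volume_ofLp hC] at h4
  have hk := kappa_pos d
  have hd0 : (d : ℝ) ≠ 0 := by
    have : (1 : ℝ) ≤ d := by exact_mod_cast hd
    linarith
  have key : ∀ (S : Set (E d)) (γ : ℝ), IsCompact S → 0 ≤ γ →
      ENNReal.ofReal (kappa d * γ ^ d) ≤ volume S →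
      kappa d ^ (1 / (d : ℝ)) * γ ≤ (volume S).toReal ^ (1 / (d : ℝ)) := by
    intro S γ hS hγ h
    have h5 : kappa d * γ ^ d ≤ (volume S).toReal := by
      have h6 := ENNReal.toReal_mono hS.measure_lt_top.ne h
      rwa [ENNReal.toReal_ofReal (by positivity)] at h6
    have h6 : (kappa d * γ ^ d) ^ (1 / (d : ℝ)) ≤ (volume S).toReal ^ (1 / (d : ℝ)) :=
      Real.rpow_le_rpow (by positivity) h5 (by positivity)
    rw [Real.mul_rpow hk.le (by positivity), ← Real.rpow_natCast γ d, ← Real.rpow_mul hγ,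
      mul_one_div_cancel hd0, Real.rpow_one] at h6
    exact h6
  have h5 := key A α hA hα h1
  have h6 := key B β hB hβ h2
  have h7 : kappa d ^ (1 / (d : ℝ)) * ((1 - s) * α + s * β) ≤
      (volume ((1 - s) • A + s • B)).toReal ^ (1 / (d : ℝ)) := by
    refine le_trans ?_ h4
    have h8 : 0 ≤ 1 - s := by linarith
    have h9 := mul_le_mul_of_nonneg_left h5 h8
    have h10 := mul_le_mul_of_nonneg_left h6 hs0.le
    linarith
  have h8 : 0 ≤ (1 - s) * α + s * β :=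
    add_nonneg (mul_nonneg (by linarith) hα) (mul_nonneg hs0.le hβ)
  have h9 := pow_le_pow_left₀ (mul_nonneg (Real.rpow_nonneg hk.le _) h8) h7 d
  rw [mul_pow, ← Real.rpow_natCast (kappa d ^ (1 / (d : ℝ))) d, ← Real.rpow_mul hk.le,
    one_div_mul_cancel hd0, Real.rpow_one,
    ← Real.rpow_natCast ((volume ((1 - s) • A + s • B)).toReal ^ (1 / (d : ℝ))) d,
    ← Real.rpow_mul ENNReal.toReal_nonneg, one_div_mul_cancel hd0, Real.rpow_one] at h9
  rw [← ENNReal.ofReal_toReal hC.measure_lt_top.ne]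
  exact ENNReal.ofReal_le_ofReal h9

end Pool.Agent.SX
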