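import Pool.Agent.Lib.SX.Defs

/-!
# The strong sausage conjecture in large dimensions: basic facts
-/

set_option autoImplicit false

open MeasureTheory Metric Set Filter Topology
open scoped Pointwise RealInnerProductSpace ENNReal

namespace Pool.Agent.SX

open Pool.Agent.Saus

variable {d : ℕ}

theorem parallel_eq {K : Set (E d)} (hK : IsCompact K) (hne : K.Nonempty) {r : ℝ} (_hr : 0 ≤ r) :
    K + closedBall (0 : E d) r = {z | infDist z K ≤ r} := by
  ext z
  constructor
  · rintro ⟨k, hk, v, hv, rfl⟩
    have h1 := infDist_le_dist_of_mem (x := k + v) hk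
    rw [mem_closedBall, dist_zero_right] at hv
    have h2 : dist (k + v) k = ‖v‖ := by rw [dist_eq_norm]; simp
    show infDist (k + v) K ≤ r
    linarith
  · intro hz
    obtain ⟨y, hy, hyz⟩ := hK.exists_infDist_eq_dist hne z
    refine ⟨y, hy, z - y, ?_, by simp⟩
    rw [mem_closedBall, dist_zero_right, ← dist_eq_norm, ← hyz]
    exact hz

theorem isClosed_far (K : Set (E d)) (x : E d) (t a : ℝ) : IsClosed (far K x t a) :=
  isClosed_closedBall.inter (isClosed_le continuous_const (continuous_infDist_pt K))

theorem isCompact_far_base (K : Set (E d)) (x : E d) (t a : ℝ) : IsCompact (far K x t a) :=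
  (isCompact_closedBall x t).of_isClosed_subset (isClosed_far K x t a) fun _ h => h.1

theorem measurableSet_lay (K : Set (E d)) (a b : ℝ) : MeasurableSet (lay K a b) :=
  (measurableSet_le measurable_const (continuous_infDist_pt K).measurable).inter
    (measurableSet_lt (continuous_infDist_pt K).measurable measurable_const)

theorem measurableSet_clay (K : Set (E d)) (a b : ℝ) : MeasurableSet (clay K a b) :=
  (measurableSet_le measurable_const (continuous_infDist_pt K).measurable).inter
    (measurableSet_le (continuous_infDist_pt K).measurable measurable_const)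

theorem measurableSet_ltDist (K : Set (E d)) (a : ℝ) : MeasurableSet {z | infDist z K < a} :=
  measurableSet_lt (continuous_infDist_pt K).measurable measurable_const

theorem measurableSet_leDist (K : Set (E d)) (a : ℝ) : MeasurableSet {z | infDist z K ≤ a} :=
  measurableSet_le (continuous_infDist_pt K).measurable measurable_const

theorem volume_le_ne_top {K : Set (E d)} (hK : IsCompact K) (hne : K.Nonempty) (r : ℝ) :
    volume {z : E d | infDist z K ≤ r} ≠ ⊤ := by
  have h1 : {z : E d | infDist z K ≤ r} ⊆ K + closedBall (0 : E d) (max r 0) := by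
    rw [parallel_eq hK hne (le_max_right _ _)]
    intro z (hz : infDist z K ≤ r)
    show infDist z K ≤ max r 0
    exact le_trans hz (le_max_left _ _)
  exact ((measure_mono h1).trans_lt
    (hK.add (isCompact_closedBall _ _)).measure_lt_top).ne

theorem volume_clay_ne_top {K : Set (E d)} (hK : IsCompact K) (hne : K.Nonempty) (a b : ℝ) :
    volume (clay K a b) ≠ ⊤ := by
  have h1 : clay K a b ⊆ {z : E d | infDist z K ≤ b} := fun z h => h.2
  exact ((measure_mono h1).trans_lt (volume_le_ne_top hK hne b).lt_top).ne

theorem volume_lay_ne_top {K : Set (E d)} (hK : IsCompact K) (hne : K.Nonempty) (a b : ℝ) :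
    volume (lay K a b) ≠ ⊤ := by
  have h1 : lay K a b ⊆ {z : E d | infDist z K ≤ b} := fun z h => h.2.le
  exact ((measure_mono h1).trans_lt (volume_le_ne_top hK hne b).lt_top).ne

theorem volume_lt_ne_top {K : Set (E d)} (hK : IsCompact K) (hne : K.Nonempty) (a : ℝ) :
    volume {z : E d | infDist z K < a} ≠ ⊤ := by
  have h1 : {z : E d | infDist z K < a} ⊆ {z : E d | infDist z K ≤ a} := by
    intro z (h : infDist z K < a)
    exact h.le
  exact ((measure_mono h1).trans_lt (volume_le_ne_top hK hne a).lt_top).ne

/-- Projection to a compact convex set. -/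
theorem exists_proj {K : Set (E d)} (hK : IsCompact K) (hc : Convex ℝ K) (hne : K.Nonempty)
    (z : E d) : ∃ p ∈ K, infDist z K = dist z p ∧ (∀ y ∈ K, ⟪z - p, y - p⟫ ≤ 0) ∧
      ∀ y ∈ K, dist y p ^ 2 + infDist z K ^ 2 ≤ dist z y ^ 2 := by
  obtain ⟨p, hp, hpz⟩ := hK.exists_infDist_eq_dist hne z
  have hinf : ‖z - p‖ = ⨅ w : K, ‖z - w‖ := by
    rw [← dist_eq_norm, ← hpz, infDist_eq_iInf]
    simp_rw [dist_eq_norm]
  have hobt := (norm_eq_iInf_iff_real_inner_le_zero hc hp).1 hinf
  refine ⟨p, hp, hpz, hobt, fun y hy => ?_⟩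
  have h1 := hobt y hy
  rw [hpz, dist_eq_norm, dist_eq_norm, dist_eq_norm]
  have h2 : ‖z - y‖ ^ 2 = ‖z - p‖ ^ 2 - 2 * ⟪z - p, y - p⟫ + ‖y - p‖ ^ 2 := by
    have h3 : z - y = (z - p) - (y - p) := by abel
    rw [h3, norm_sub_sq_real (z - p) (y - p)]
  rw [h2]
  linarith

/-- The parallel body is the disjoint union of the inner part and the outer layer. -/
theorem volume_split {K : Set (E d)} {a r : ℝ} (har : a ≤ r) :
    volume {z : E d | infDist z K ≤ r} = volume {z : E d | infDist z K < a} + volume (clay K a r) := by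
  rw [← measure_union]
  · congr 1
    ext z
    constructor
    · intro hz
      rcases lt_or_ge (infDist z K) a with h | h
      · exact Or.inl h
      · exact Or.inr ⟨h, hz⟩
    · rintro (h | h)
      · exact (le_of_lt h).trans har
      · exact h.2
  · rw [Set.disjoint_left]
    intro z h1 h2
    exact absurd h1 (not_lt.2 h2.1)
  · exact measurableSet_clay K a r

theorem V_eq {X : Finset (E d)} (hne : X.Nonempty) {r : ℝ} (hr : 0 ≤ r) :
    V X r = (volume {z : E d | infDist z (convexHull ℝ (X : Set (E d))) ≤ r}).toReal := by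
  unfold V
  rw [parallel_eq (X.finite_toSet.isCompact_convexHull ℝ)
    (by simpa using hne) hr]

theorem V_eq_add {X : Finset (E d)} (hne : X.Nonempty) {a r : ℝ} (hr : 0 ≤ r) (har : a ≤ r) :
    V X r = (volume {z : E d | infDist z (convexHull ℝ (X : Set (E d))) < a}).toReal +
      (volume (clay (convexHull ℝ (X : Set (E d))) a r)).toReal := by
  have hK : IsCompact (convexHull ℝ (X : Set (E d))) := X.finite_toSet.isCompact_convexHull ℝ
  have hKne : (convexHull ℝ (X : Set (E d))).Nonempty := by simpa using hne
  rw [V_eq hne hr, volume_split har,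
    ENNReal.toReal_add (volume_lt_ne_top hK hKne a) (volume_clay_ne_top hK hKne a r)]

end Pool.Agent.SX
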