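import Pool.Agent.Lib.SX.Defs
import Pool.Agent.Lib.Saus.Kappa

/-!
# The volume of `far K x t a` as a function of `t` (row R7, helper60)
-/

set_option autoImplicit false

open MeasureTheory Metric Set Filter Topology
open scoped Pointwise RealInnerProductSpace ENNReal

namespace Pool.Agent.SX

open Pool.Agent.Saus

private theorem far_sub {d : ℕ} (K : Set (E d)) (x : E d) (t a : ℝ) :
    far K x t a ⊆ closedBall x t := fun _ hz => hz.1

private theorem far_lt_top {d : ℕ} (K : Set (E d)) (x : E d) (t a : ℝ) :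
    volume (far K x t a) ≠ ⊤ :=
  ((measure_mono (far_sub K x t a)).trans_lt measure_closedBall_lt_top).ne

theorem far_vol {d : ℕ} (hd : 1 ≤ d) (K : Set (E d)) (x : E d) {t : ℝ} (ht : 0 ≤ t) (a : ℝ) :
    ∃ ζ : ℝ, 0 ≤ ζ ∧ ζ ≤ t ∧ volume (far K x t a) = ENNReal.ofReal (kappa d * ζ ^ d) := by
  have hk := kappa_pos d
  have hd0 : d ≠ 0 := by omega
  set v : ℝ := (volume (far K x t a)).toReal with hv
  have hv0 : 0 ≤ v := ENNReal.toReal_nonneg
  have hv1 : v ≤ kappa d * t ^ d := by
    refine ENNReal.toReal_le_of_le_ofReal (by positivity) ?_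
    rw [← volume_cball x ht]
    exact measure_mono (far_sub K x t a)
  have hq : 0 ≤ v / kappa d := by positivity
  have hp : ((v / kappa d) ^ ((d : ℝ)⁻¹)) ^ d = v / kappa d :=
    Real.rpow_inv_natCast_pow hq hd0
  refine ⟨(v / kappa d) ^ ((d : ℝ)⁻¹), by positivity, ?_, ?_⟩
  · refine (pow_le_pow_iff_left₀ (by positivity) ht hd0).1 ?_
    rw [hp, div_le_iff₀ hk, mul_comm]
    exact hv1
  · rw [hp, mul_div_cancel₀ _ hk.ne', hv, ENNReal.ofReal_toReal (far_lt_top K x t a)]

private theorem far_diff {d : ℕ} (K : Set (E d)) (x : E d) (a : ℝ) {s t : ℝ} (hs : 0 ≤ s)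
    (hst : s ≤ t) : (volume (far K x s a)).toReal ≤ (volume (far K x t a)).toReal ∧
      (volume (far K x t a)).toReal ≤ (volume (far K x s a)).toReal
        + (kappa d * t ^ d - kappa d * s ^ d) := by
  have hk := kappa_pos d
  have ht : 0 ≤ t := hs.trans hst
  constructor
  · refine ENNReal.toReal_mono (far_lt_top K x t a) (measure_mono ?_)
    intro z hz
    exact ⟨closedBall_subset_closedBall hst hz.1, hz.2⟩
  · have h1 : volume (far K x t a) ≤ volume (far K x s a) + volume (closedBall x t \ closedBall x s) := by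
      refine le_trans (measure_mono ?_) (measure_union_le _ _)
      intro z hz
      by_cases h : z ∈ closedBall x s
      · exact Or.inl ⟨h, hz.2⟩
      · exact Or.inr ⟨hz.1, h⟩
    have h2 : volume (closedBall x t \ closedBall x s)
        = ENNReal.ofReal (kappa d * t ^ d - kappa d * s ^ d) := by
      rw [measure_diff (closedBall_subset_closedBall hst) measurableSet_closedBall.nullMeasurableSet
        measure_closedBall_lt_top.ne, volume_cball x ht, volume_cball x hs,
        ENNReal.ofReal_sub _ (by positivity)]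
    have h3 : 0 ≤ kappa d * t ^ d - kappa d * s ^ d := by
      have := pow_le_pow_left₀ hs hst d
      nlinarith
    rw [h2] at h1
    have h4 := ENNReal.toReal_mono (ENNReal.add_ne_top.2 ⟨far_lt_top K x s a,
      ENNReal.ofReal_ne_top⟩) h1
    rwa [ENNReal.toReal_add (far_lt_top K x s a) ENNReal.ofReal_ne_top,
      ENNReal.toReal_ofReal h3] at h4

theorem far_ivt {d : ℕ} (hd : 1 ≤ d) (K : Set (E d)) (x : E d) {t1 t2 a c : ℝ} (hc0 : 0 ≤ c)
    (hc : c < t1) (h12 : t1 ≤ t2)
    (hlow : volume (far K x t1 a) ≤ ENNReal.ofReal (kappa d * (t1 - c) ^ d))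
    (hhigh : ENNReal.ofReal (kappa d * (t2 - c) ^ d) ≤ volume (far K x t2 a)) :
    ∃ t, t1 ≤ t ∧ t ≤ t2 ∧ volume (far K x t a) = ENNReal.ofReal (kappa d * (t - c) ^ d) := by
  have hk := kappa_pos d
  set v : ℝ → ℝ := fun t => (volume (far K x t a)).toReal with hv
  have key : ∀ s t : ℝ, 0 ≤ s → 0 ≤ t → |v s - v t| ≤ |kappa d * s ^ d - kappa d * t ^ d| := by
    intro s t hs ht
    rcases le_total s t with h | h
    · obtain ⟨h1, h2⟩ := far_diff K x a hs h
      rw [abs_sub_comm, abs_sub_comm (kappa d * s ^ d)]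
      rw [abs_of_nonneg (by simp only [hv]; linarith)]
      refine le_trans ?_ (le_abs_self _)
      simp only [hv]
      linarith
    · obtain ⟨h1, h2⟩ := far_diff K x a ht h
      rw [abs_of_nonneg (by simp only [hv]; linarith)]
      refine le_trans ?_ (le_abs_self _)
      simp only [hv]
      linarith
  have hcont : ContinuousOn v (Icc t1 t2) := by
    intro t0 ht0
    have h0 : 0 ≤ t0 := by linarith [ht0.1]
    have h1 : Tendsto (fun t => |kappa d * t ^ d - kappa d * t0 ^ d|) (𝓝[Icc t1 t2] t0) (𝓝 0) := by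
      have h2 : Continuous (fun t : ℝ => |kappa d * t ^ d - kappa d * t0 ^ d|) := by fun_prop
      have h3 := (h2.tendsto t0).mono_left (nhdsWithin_le_nhds (s := Icc t1 t2))
      simpa using h3
    have h4 : Tendsto (fun t => v t - v t0) (𝓝[Icc t1 t2] t0) (𝓝 0) := by
      refine squeeze_zero_norm' ?_ h1
      filter_upwards [self_mem_nhdsWithin] with t ht
      rw [Real.norm_eq_abs]
      exact key t t0 (by linarith [ht.1]) h0
    have h5 := h4.add_const (v t0)
    simpa [ContinuousWithinAt] using h5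
  have hf : ContinuousOn (fun t => v t - kappa d * (t - c) ^ d) (Icc t1 t2) :=
    hcont.sub (by fun_prop)
  have h1 : v t1 - kappa d * (t1 - c) ^ d ≤ 0 := by
    have : v t1 ≤ kappa d * (t1 - c) ^ d :=
      ENNReal.toReal_le_of_le_ofReal (by have : 0 ≤ t1 - c := by linarith
                                         positivity) hlow
    linarith
  have h2 : 0 ≤ v t2 - kappa d * (t2 - c) ^ d := by
    have : kappa d * (t2 - c) ^ d ≤ v t2 :=
      (ENNReal.ofReal_le_iff_le_toReal (far_lt_top K x t2 a)).1 hhigh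
    linarith
  obtain ⟨t, ht, hft⟩ := intermediate_value_Icc h12 hf ⟨h1, h2⟩
  refine ⟨t, ht.1, ht.2, ?_⟩
  have h3 : v t = kappa d * (t - c) ^ d := by
    have : v t - kappa d * (t - c) ^ d = 0 := hft
    linarith
  rw [← h3, hv, ENNReal.ofReal_toReal (far_lt_top K x t a)]

end Pool.Agent.SX
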