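import Pool.Agent.Lib.Saus.Defs

/-!
# The strong sausage conjecture in large dimensions: definitions
-/

set_option autoImplicit false

open MeasureTheory Metric Set Filter Topology
open scoped Pointwise RealInnerProductSpace ENNReal

namespace Pool.Agent.SX

open Pool.Agent.Saus

/-- The points whose distance to `K` is in `[a, b)`. -/
def lay {d : ℕ} (K : Set (E d)) (a b : ℝ) : Set (E d) := {z | a ≤ infDist z K ∧ infDist z K < b}

/-- The points whose distance to `K` is in `[a, b]`. -/
def clay {d : ℕ} (K : Set (E d)) (a b : ℝ) : Set (E d) := {z | a ≤ infDist z K ∧ infDist z K ≤ b}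

/-- The points of the ball with centre `x` and radius `t` whose distance to `K` is at least `a`. -/
def far {d : ℕ} (K : Set (E d)) (x : E d) (t a : ℝ) : Set (E d) :=
  {z | z ∈ closedBall x t ∧ a ≤ infDist z K}

/-- The small constant `η₀`. -/
noncomputable def eta0 : ℝ := 1 / 640000000

/-- The volume per ball of a long sausage. -/
noncomputable def Dst (d : ℕ) (r : ℝ) : ℝ := 2 * kappa (d - 1) * r ^ (d - 1)

end Pool.Agent.SX
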