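import Pool.Agent.Lib.KL.PackMain
import Pool.Agent.Lib.MP_dcaa2d_sau.Basic

/-!
The maximal density of a packing of unit balls in high dimension.
-/

set_option autoImplicit false

namespace Pool.Agent.Sausage

open MeasureTheory Filter Topology Metric Real

theorem closedBall_ae {d : ℕ} (hd : 0 < d) (x : E d) (R : ℝ) :
    (closedBall x R : Set (E d)) =ᵐ[volume] ball x R := by
  have : Nonempty (Fin d) := ⟨⟨0, hd⟩⟩
  rw [← ball_union_sphere]
  exact union_ae_eq_left_of_ae_eq_empty (ae_eq_empty.2 (Measure.addHaar_sphere volume x R))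

theorem upperDensity_eq {d : ℕ} (hd : 0 < d) (P : Set (E d)) :
    upperDensity P = Pool.Agent.Lib.KL.Pack.density 1 P := by
  unfold upperDensity Pool.Agent.Lib.KL.Pack.density
  have h1 : ∀ R : ℝ, (volume (closedBall (0 : E d) R ∩ ⋃ x ∈ P, closedBall x 1)).toReal =
      volume.real (ball (0 : E d) R ∩ ⋃ x ∈ P, closedBall x 1) := by
    intro R
    rw [measureReal_def]
    congr 1
    exact measure_congr ((closedBall_ae hd 0 R).inter (ae_eq_refl _))
  have h2 : ∀ R : ℝ, (volume (closedBall (0 : E d) R)).toReal =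
      volume.real (ball (0 : E d) R) := by
    intro R
    rw [measureReal_def]
    congr 1
    exact measure_congr (closedBall_ae hd 0 R)
  simp only [h1, h2]

theorem isPacking_iff {d : ℕ} (P : Set (E d)) :
    IsPacking P ↔ Pool.Agent.Lib.KL.Pack.IsPacking 1 P := by
  unfold IsPacking Pool.Agent.Lib.KL.Pack.IsPacking
  have h : ∀ x y : E d, 2 ≤ dist x y ↔ Disjoint (ball x 1) (ball y 1) := by
    intro x y
    rw [disjoint_ball_ball_iff one_pos one_pos]
    norm_num
  constructor
  · intro hP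
    exact ⟨one_pos, fun x hx y hy hxy => (h x y).1 (hP hx hy hxy)⟩
  · intro hP x hx y hy hxy
    exact (h x y).2 (hP.2 hx hy hxy)

/-- **The maximal density of a packing of unit balls is at most `2 ^ (-κ d)` for large `d`, for
every `κ < log₂ (2 π / e) / 2 = 0.6044…`.** -/
theorem maxDensity_bound {κ : ℝ} (hκ : κ < logb 2 (2 * π / exp 1) / 2) :
    ∀ᶠ d : ℕ in atTop, maxDensity d ≤ (2 : ℝ) ^ (-(κ * d)) := by
  filter_upwards [Pool.Agent.Lib.KL.Pack.packing_bound hκ, eventually_gt_atTop 0] with d hd hd0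
  refine csSup_le ⟨upperDensity (∅ : Set (E d)), ∅, Set.pairwise_empty _, rfl⟩ ?_
  rintro _ ⟨P, hP, rfl⟩
  rw [upperDensity_eq hd0]
  exact (Pool.Agent.Lib.KL.Pack.density_le_Delta ((isPacking_iff P).1 hP)).trans hd

end Pool.Agent.Sausage
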