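import Pool.Agent.Lib.Saus.Kappa

/-!
# The ratio of the volumes of the unit balls, upper bound (row KR, helper60)
-/

set_option autoImplicit false

open MeasureTheory Metric Set Filter Topology
open scoped Pointwise RealInnerProductSpace

namespace Pool.Agent.SX

open Pool.Agent.Saus

private lemma kappa_eq {m : ℕ} (hm : 1 ≤ m) :
    kappa m = Real.sqrt Real.pi ^ m / Real.Gamma ((m : ℝ) / 2 + 1) := by
  have : Nonempty (Fin m) := ⟨⟨0, hm⟩⟩
  have hG : 0 < Real.Gamma ((m : ℝ) / 2 + 1) := Real.Gamma_pos_of_pos (by positivity)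
  unfold kappa
  rw [EuclideanSpace.volume_closedBall, Fintype.card_fin]
  simp only [ENNReal.ofReal_one, one_pow, one_mul]
  rw [ENNReal.toReal_ofReal (by positivity)]

private lemma gamma_ratio {x : ℝ} (hx : 0 < x) :
    Real.Gamma (x + 1 / 2) ^ 2 ≤ x * Real.Gamma x ^ 2 := by
  have h1 : 0 < Real.Gamma x := Real.Gamma_pos_of_pos hx
  have h2 : 0 < Real.Gamma (x + 1) := Real.Gamma_pos_of_pos (by linarith)
  have h3 : 0 < Real.Gamma (x + 1 / 2) := Real.Gamma_pos_of_pos (by linarith)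
  have h4 := Real.Gamma_mul_add_mul_le_rpow_Gamma_mul_rpow_Gamma (s := x) (t := x + 1)
    (a := 1 / 2) (b := 1 / 2) hx (by linarith) (by norm_num) (by norm_num) (by norm_num)
  have h5 : 1 / 2 * x + 1 / 2 * (x + 1) = x + 1 / 2 := by ring
  rw [h5, ← Real.sqrt_eq_rpow, ← Real.sqrt_eq_rpow, ← Real.sqrt_mul h1.le] at h4
  have h6 : Real.Gamma (x + 1 / 2) ^ 2 ≤ Real.Gamma x * Real.Gamma (x + 1) := by
    have := pow_le_pow_left₀ h3.le h4 2
    rwa [Real.sq_sqrt (by positivity)] at this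
  rw [Real.Gamma_add_one hx.ne'] at h6
  calc Real.Gamma (x + 1 / 2) ^ 2 ≤ Real.Gamma x * (x * Real.Gamma x) := h6
    _ = x * Real.Gamma x ^ 2 := by ring

theorem kappa_ratio_le : ∀ᶠ m : ℕ in atTop, kappa m ≤ ((m : ℝ) + 2) * kappa (m + 1) := by
  filter_upwards [eventually_ge_atTop 1] with m hm
  have hk := kappa_pos m
  have hk1 := kappa_pos (m + 1)
  have hG : 0 < Real.Gamma ((m : ℝ) / 2 + 1) := Real.Gamma_pos_of_pos (by positivity)
  have hG1 : 0 < Real.Gamma ((m : ℝ) / 2 + 1 + 1 / 2) := Real.Gamma_pos_of_pos (by positivity)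
  have hpi : 0 < Real.sqrt Real.pi := Real.sqrt_pos.2 Real.pi_pos
  have h1 : kappa m / kappa (m + 1)
      = Real.Gamma ((m : ℝ) / 2 + 1 + 1 / 2) / (Real.sqrt Real.pi * Real.Gamma ((m : ℝ) / 2 + 1)) := by
    rw [kappa_eq hm, kappa_eq (by omega : 1 ≤ m + 1)]
    have h2 : (((m + 1 : ℕ) : ℝ) / 2 + 1) = (m : ℝ) / 2 + 1 + 1 / 2 := by push_cast; ring
    rw [h2, pow_succ]
    field_simp
  have h2 := gamma_ratio (x := (m : ℝ) / 2 + 1) (by positivity)
  have h3 : (kappa m / kappa (m + 1)) ^ 2 ≤ ((m : ℝ) + 2) ^ 2 := by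
    rw [h1, div_pow, mul_pow, Real.sq_sqrt Real.pi_pos.le, div_le_iff₀ (by positivity)]
    have h0 : (0 : ℝ) ≤ m := Nat.cast_nonneg _
    have h4 : ((m : ℝ) / 2 + 1) ≤ ((m : ℝ) + 2) ^ 2 * Real.pi := by
      nlinarith [Real.pi_gt_three]
    calc Real.Gamma ((m : ℝ) / 2 + 1 + 1 / 2) ^ 2
        ≤ ((m : ℝ) / 2 + 1) * Real.Gamma ((m : ℝ) / 2 + 1) ^ 2 := h2
      _ ≤ ((m : ℝ) + 2) ^ 2 * Real.pi * Real.Gamma ((m : ℝ) / 2 + 1) ^ 2 := by gcongr
      _ = _ := by ring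
  have h5 : kappa m / kappa (m + 1) ≤ (m : ℝ) + 2 :=
    (pow_le_pow_iff_left₀ (by positivity) (by positivity) two_ne_zero).1 h3
  rwa [div_le_iff₀ hk1] at h5

end Pool.Agent.SX
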