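import Pool.Agent.Lib.SX.BM
import Pool.Agent.Lib.Saus.Kappa

/-!
# Two separated compact sets in balls around `x` cannot both be large
-/

set_option autoImplicit false

open MeasureTheory Metric Set Filter Topology
open scoped Pointwise RealInnerProductSpace ENNReal

namespace Pool.Agent.SX

open Pool.Agent.Saus

theorem thin_sep {d : ℕ} (hd : 1 ≤ d) (x : E d) {r s0 ε : ℝ} (hr1 : 1 ≤ r) (hr2 : r ≤ 2)
    (hε : 0 < ε) (hε1 : ε ≤ 1 / 10) (hs0 : 0 < s0) (hs : s0 ≤ ε / 4) {P A : Set (E d)}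
    (hP : IsCompact P) (hA : IsCompact A) (hP1 : P ⊆ closedBall x (Real.sqrt (r ^ 2 + s0 ^ 2)))
    (hA1 : A ⊆ closedBall x (r + ε / 4)) (hsep : ∀ y ∈ P, ∀ z ∈ A, ε ≤ dist y z)
    (hPv : ENNReal.ofReal (kappa d * r ^ d) ≤ volume P)
    (hAv : ENNReal.ofReal (kappa d * (r + ε / 4 - ε ^ 2 / 64) ^ d) ≤ volume A) : False := by
  have hk := kappa_pos d
  have hε2 : ε ^ 2 ≤ 1 / 10 * ε := by nlinarith
  have hβ : 0 < r + ε / 4 - ε ^ 2 / 64 := by nlinarith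
  have hne : ∀ {S : Set (E d)} {α : ℝ}, 0 < α → ENNReal.ofReal (kappa d * α ^ d) ≤ volume S →
      S.Nonempty := by
    intro S α hα h
    rw [Set.nonempty_iff_ne_empty]
    rintro rfl
    rw [measure_empty, nonpos_iff_eq_zero, ENNReal.ofReal_eq_zero] at h
    exact absurd h (not_le.2 (by positivity))
  have hP' := hne (by linarith : 0 < r) hPv
  have hA' := hne hβ hAv
  have hbm := bm_E hd hP hA hP' hA' (s := 1 / 2) (by norm_num) (by norm_num) (by linarith) hβ.le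
    hPv hAv
  set R : ℝ := Real.sqrt ((r ^ 2 + s0 ^ 2) / 2 + (r + ε / 4) ^ 2 / 2 - ε ^ 2 / 4) with hR
  have hR2 : 0 ≤ (r ^ 2 + s0 ^ 2) / 2 + (r + ε / 4) ^ 2 / 2 - ε ^ 2 / 4 := by nlinarith
  have hsub : (1 - 1 / 2 : ℝ) • P + (1 / 2 : ℝ) • A ⊆ closedBall x R := by
    rintro _ ⟨_, ⟨y, hy, rfl⟩, _, ⟨z, hz, rfl⟩, rfl⟩
    have h1 : ‖y - x‖ ^ 2 ≤ r ^ 2 + s0 ^ 2 := by
      have h := hP1 hy
      rw [mem_closedBall, dist_eq_norm] at h
      exact (Real.le_sqrt (norm_nonneg _) (by positivity)).1 h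
    have h2 : ‖z - x‖ ^ 2 ≤ (r + ε / 4) ^ 2 := by
      have h := hA1 hz
      rw [mem_closedBall, dist_eq_norm] at h
      exact pow_le_pow_left₀ (norm_nonneg _) h 2
    have h3 : ε ^ 2 ≤ ‖(y - x) - (z - x)‖ ^ 2 := by
      have h := hsep y hy z hz
      rw [dist_eq_norm] at h
      rw [sub_sub_sub_cancel_right]
      exact pow_le_pow_left₀ hε.le h 2
    have h4 := parallelogram_law_with_norm ℝ (y - x) (z - x)
    have h5 : (1 - 1 / 2 : ℝ) • y + (1 / 2 : ℝ) • z - x = (1 / 2 : ℝ) • ((y - x) + (z - x)) := by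
      module
    rw [mem_closedBall, dist_eq_norm]
    refine Real.le_sqrt_of_sq_le ?_
    show ‖(1 - 1 / 2 : ℝ) • y + (1 / 2 : ℝ) • z - x‖ ^ 2 ≤ _
    rw [h5, norm_smul, mul_pow, Real.norm_of_nonneg (by norm_num : (0 : ℝ) ≤ 1 / 2)]
    nlinarith
  have h6 := hbm.trans (measure_mono hsub)
  rw [volume_cball x (Real.sqrt_nonneg _), ENNReal.ofReal_le_ofReal_iff (by positivity)] at h6
  have h7 : ((1 - 1 / 2) * r + 1 / 2 * (r + ε / 4 - ε ^ 2 / 64)) ≤ R := by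
    refine le_of_pow_le_pow_left₀ (by omega : d ≠ 0) (Real.sqrt_nonneg _) ?_
    exact le_of_mul_le_mul_left h6 hk
  have h8 : ((1 - 1 / 2) * r + 1 / 2 * (r + ε / 4 - ε ^ 2 / 64)) ^ 2 ≤
      (r ^ 2 + s0 ^ 2) / 2 + (r + ε / 4) ^ 2 / 2 - ε ^ 2 / 4 := by
    rw [← Real.sq_sqrt hR2]
    exact pow_le_pow_left₀ (by nlinarith) h7 2
  have h9 : s0 ^ 2 ≤ (ε / 4) ^ 2 := pow_le_pow_left₀ hs0.le hs 2
  have h10 : r * ε ^ 2 ≤ 2 * ε ^ 2 := by nlinarith [sq_nonneg ε]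
  have h11 : ε * ε ^ 2 ≤ 1 / 10 * ε ^ 2 := by nlinarith [sq_nonneg ε]
  nlinarith [sq_nonneg (ε ^ 2), pow_pos hε 2]

end Pool.Agent.SX
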