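import Pool.Agent.Lib.SX.Layer
import Pool.Agent.Lib.SX.Thin
import Pool.Agent.Lib.SX.Cont

/-!
# A point which is not good, with a tube
-/

set_option autoImplicit false

open MeasureTheory Metric Set Filter Topology
open scoped Pointwise RealInnerProductSpace ENNReal

namespace Pool.Agent.SX

open Pool.Agent.Saus

/-- The function `ζ ↦ (ζ + h)^d - ζ^d` is increasing. -/
theorem pow_diff_mono (d : ℕ) {a b h : ℝ} (ha : 0 ≤ a) (hab : a ≤ b) (hh : 0 ≤ h) :
    (a + h) ^ d - a ^ d ≤ (b + h) ^ d - b ^ d := by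
  induction d with
  | zero => simp
  | succ d ih =>
    have h1 : a ^ d ≤ b ^ d := pow_le_pow_left₀ ha hab d
    have h2 : 0 ≤ (a + h) ^ d - a ^ d := by
      have := pow_le_pow_left₀ ha (by linarith : a ≤ a + h) d
      linarith
    have h3 : (a + h) ^ (d + 1) - a ^ (d + 1) = a * ((a + h) ^ d - a ^ d) + h * (a + h) ^ d := by
      ring
    have h4 : (b + h) ^ (d + 1) - b ^ (d + 1) = b * ((b + h) ^ d - b ^ d) + h * (b + h) ^ d := by
      ring
    rw [h3, h4]
    refine add_le_add (mul_le_mul hab ih h2 (by linarith)) (mul_le_mul_of_nonneg_left ?_ hh)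
    exact pow_le_pow_left₀ (by linarith) (by linarith) d

/-- The layer below the far set in a ball of radius `t`, where the far set has volume
`κ_d ζ^d` with `ζ ≤ t - c`. -/
theorem layer_of_far {d : ℕ} (hd : 1 ≤ d) {K : Set (E d)} (hne : K.Nonempty) (x : E d)
    {r w t ζ : ℝ} (hr1 : 1.51 ≤ r) (hr2 : r ≤ 2)
    (hw2 : w ≤ kappa d * ((r + eta0) ^ d - r ^ d)) (ht2 : t ≤ max 2 (r + 1 / 400))
    (ht1 : 1 / 640000 ≤ t - ζ) (hζ : r - eta0 ≤ ζ)
    (hv : volume (far K x t (r - 2 / 100)) = ENNReal.ofReal (kappa d * ζ ^ d)) :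
    ∃ S : Set (E d), MeasurableSet S ∧ S ⊆ clay K (r - 3 / 100) r ∧
      (∀ z ∈ S, dist z x ^ 2 - infDist z K ^ 2 ≤ 2 - 1 / 10) ∧ ENNReal.ofReal w ≤ volume S := by
  have hk := kappa_pos d
  have he : eta0 = 1 / 640000000 := rfl
  have he0 : 0 < eta0 := by rw [he]; norm_num
  have ht3 : t ≤ 2.0025 := by
    refine ht2.trans (max_le (by norm_num) (by linarith))
  have hζ0 : 0 < ζ := by
    rw [he] at hζ
    linarith
  have ht0 : 0 < t := by linarith
  have ht1' : 1.5 ≤ t := by
    rw [he] at hζ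
    linarith
  have h1 := layer_bm hd K hne x (t := t) (ε := 1 / 100) (a := r - 2 / 100) (ζ := ζ) ht0
    (by norm_num) (by linarith) hζ0 (by linarith) hv
  have h2 : 2 * eta0 ≤ 1 / 100 / (2 * t) * (t - ζ) := by
    have h3 : (1 : ℝ) / 500 ≤ 1 / 100 / (2 * t) := by
      rw [le_div_iff₀ (by positivity)]
      linarith
    calc 2 * eta0 = 1 / 500 * (1 / 640000) := by rw [he]; norm_num
      _ ≤ 1 / 100 / (2 * t) * (t - ζ) :=
        mul_le_mul h3 ht1 (by norm_num) (by positivity)
  have h3 : (r + eta0) ^ d - r ^ d ≤ (ζ + 1 / 100 / (2 * t) * (t - ζ)) ^ d - ζ ^ d := by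
    have h4 : (r + eta0) ^ d - r ^ d ≤ (r - eta0 + 2 * eta0) ^ d - (r - eta0) ^ d := by
      have h5 : r - eta0 + 2 * eta0 = r + eta0 := by ring
      rw [h5]
      have h6 : (r - eta0) ^ d ≤ r ^ d :=
        pow_le_pow_left₀ (by rw [he]; linarith) (by linarith) d
      linarith
    have h5 : (r - eta0 + 2 * eta0) ^ d - (r - eta0) ^ d ≤ (ζ + 2 * eta0) ^ d - ζ ^ d :=
      pow_diff_mono d (by rw [he]; linarith) hζ (by linarith)
    have h6 : (ζ + 2 * eta0) ^ d ≤ (ζ + 1 / 100 / (2 * t) * (t - ζ)) ^ d :=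
      pow_le_pow_left₀ (by linarith) (by linarith) d
    linarith
  refine ⟨closedBall x t ∩ lay K (r - 2 / 100 - 1 / 100) (r - 2 / 100), ?_, ?_, ?_, ?_⟩
  · exact measurableSet_closedBall.inter
      ((measurableSet_le measurable_const (continuous_infDist_pt K).measurable).inter
        (measurableSet_lt (continuous_infDist_pt K).measurable measurable_const))
  · rintro z ⟨-, hz1, hz2⟩
    exact ⟨by linarith, by linarith⟩
  · rintro z ⟨hz0, hz1, hz2⟩
    rw [mem_closedBall] at hz0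
    have h4 : dist z x ^ 2 ≤ t ^ 2 := pow_le_pow_left₀ dist_nonneg hz0 2
    have h5 : (r - 3 / 100) ^ 2 ≤ infDist z K ^ 2 :=
      pow_le_pow_left₀ (by linarith) (by linarith) 2
    rcases le_total (r + 1 / 400) 2 with h6 | h6
    · rw [max_eq_left h6] at ht2
      nlinarith
    · rw [max_eq_right h6] at ht2
      nlinarith
  · refine le_trans (ENNReal.ofReal_le_ofReal ?_) h1
    exact hw2.trans (mul_le_mul_of_nonneg_left h3 hk.le)

theorem point_lemma {d : ℕ} (hd : 1 ≤ d) {K : Set (E d)} (hK : IsCompact K) (hne : K.Nonempty)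
    (x : E d) {r w : ℝ} (hr1 : 1.51 ≤ r) (hr2 : r ≤ 2) (hw1 : kappa d * r ^ d < w)
    (hw2 : w ≤ kappa d * ((r + eta0) ^ d - r ^ d))
    (hfar : ENNReal.ofReal (kappa d * (r - eta0) ^ d) ≤ volume (far K x 2 (r - 2 / 100)))
    {Q : Set (E d)} (hQm : MeasurableSet Q) (hQ1 : ∀ y ∈ Q, infDist y K ≤ r)
    (hQ2 : Q ⊆ closedBall x (Real.sqrt (r ^ 2 + (1 / 400) ^ 2)))
    (hQv : ENNReal.ofReal (2 * w) ≤ volume Q) :
    ∃ S : Set (E d), MeasurableSet S ∧ S ⊆ clay K (r - 3 / 100) r ∧
      (∀ z ∈ S, dist z x ^ 2 - infDist z K ^ 2 ≤ 2 - 1 / 10) ∧ ENNReal.ofReal w ≤ volume S := by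
  have hk := kappa_pos d
  have he : eta0 = 1 / 640000000 := rfl
  have hw0 : 0 < w := lt_of_le_of_lt (by positivity) hw1
  have hN : Measurable fun z : E d => infDist z K := (continuous_infDist_pt K).measurable
  set Q1 := Q ∩ {z | r - 3 / 100 ≤ infDist z K} with hQ1def
  set Q2 := Q ∩ {z | infDist z K < r - 3 / 100} with hQ2def
  have hQ1m : MeasurableSet Q1 := hQm.inter (measurableSet_le measurable_const hN)
  have hQ2m : MeasurableSet Q2 := hQm.inter (measurableSet_lt hN measurable_const)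
  by_cases hcase : ENNReal.ofReal w ≤ volume Q1
  · refine ⟨Q1, hQ1m, fun z hz => ⟨hz.2, hQ1 z hz.1⟩, fun z hz => ?_, hcase⟩
    have h1 := hQ2 hz.1
    rw [mem_closedBall] at h1
    have h2 : dist z x ^ 2 ≤ r ^ 2 + (1 / 400) ^ 2 := by
      have h3 := pow_le_pow_left₀ dist_nonneg h1 2
      rwa [Real.sq_sqrt (by positivity)] at h3
    have h5 : (r - 3 / 100) ^ 2 ≤ infDist z K ^ 2 :=
      pow_le_pow_left₀ (by linarith) hz.2 2
    nlinarith
  -- the tube has a large part near `K`
  have hQ2v : ENNReal.ofReal w < volume Q2 := by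
    by_contra hcon
    push Not at hcon hcase
    have h1 : Q = Q1 ∪ Q2 := by
      ext z
      simp only [hQ1def, hQ2def, mem_union, mem_inter_iff, mem_ofPred_eq]
      constructor
      · intro hz
        rcases le_or_gt (r - 3 / 100) (infDist z K) with h | h
        · exact Or.inl ⟨hz, h⟩
        · exact Or.inr ⟨hz, h⟩
      · rintro (h | h)
        · exact h.1
        · exact h.1
    have h2 : volume Q < ENNReal.ofReal w + ENNReal.ofReal w := by
      rw [h1]
      refine lt_of_le_of_lt (measure_union_le _ _) ?_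
      exact ENNReal.add_lt_add_of_lt_of_le (ne_top_of_le_ne_top ENNReal.ofReal_ne_top hcon) hcase hcon
    rw [← ENNReal.ofReal_add hw0.le hw0.le, ← two_mul] at h2
    exact absurd hQv (not_le.2 h2)
  obtain ⟨P, hPQ, hPc, hPv⟩ := hQ2m.exists_lt_isCompact (r := ENNReal.ofReal (kappa d * r ^ d))
    (lt_trans ((ENNReal.ofReal_lt_ofReal_iff hw0).2 hw1) hQ2v)
  -- the radii
  have h640 : (1 / 100 : ℝ) ^ 2 / 64 = 1 / 640000 := by norm_num
  set t1 := r + 1 / 400 with ht1
  set t2 := max 2 t1 with ht2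
  have h12 : t1 ≤ t2 := le_max_right _ _
  have hlow : volume (far K x t1 (r - 2 / 100)) <
      ENNReal.ofReal (kappa d * (t1 - 1 / 640000) ^ d) := by
    by_contra hcon
    push Not at hcon
    refine thin_sep hd x (r := r) (s0 := 1 / 400) (ε := 1 / 100) (by linarith) hr2 (by norm_num)
      (by norm_num) (by norm_num) (by norm_num) hPc (isCompact_far K x t1 (r - 2 / 100))
      (fun y hy => hQ2 (hPQ hy).1) (fun y hy => ?_) (fun y hy z hz => ?_) hPv.le ?_
    · have h1 := hy.1
      rw [mem_closedBall] at h1 ⊢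
      rw [ht1] at h1
      linarith
    · have h1 : infDist y K < r - 3 / 100 := (hPQ hy).2
      have h2 : r - 2 / 100 ≤ infDist z K := hz.2
      have h3 : infDist z K ≤ infDist y K + dist z y := infDist_le_infDist_add_dist
      rw [dist_comm z y] at h3
      linarith
    · refine le_trans (le_of_eq ?_) hcon
      rw [h640, ht1]
      norm_num
  by_cases hhigh : ENNReal.ofReal (kappa d * (t2 - 1 / 640000) ^ d) ≤
      volume (far K x t2 (r - 2 / 100))
  · obtain ⟨t, ht1', ht2', hv⟩ := far_ivt hd K x (t1 := t1) (t2 := t2) (a := r - 2 / 100)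
      (c := 1 / 640000) (by norm_num) (by rw [ht1]; linarith) h12 hlow.le hhigh
    refine layer_of_far hd hne x hr1 hr2 hw2 (t := t) (ζ := t - 1 / 640000) ht2' (by linarith) ?_ hv
    rw [ht1] at ht1'
    rw [he]
    linarith
  · push Not at hhigh
    obtain ⟨ζ, hζ0, hζt, hv⟩ := far_vol hd K x (t := t2) (by positivity) (r - 2 / 100)
    refine layer_of_far hd hne x hr1 hr2 hw2 (t := t2) (ζ := ζ) le_rfl ?_ ?_ hv
    · rw [hv] at hhigh
      have h1 : kappa d * ζ ^ d < kappa d * (t2 - 1 / 640000) ^ d := by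
        by_contra hcon
        push Not at hcon
        exact absurd (ENNReal.ofReal_le_ofReal hcon) (not_le.2 hhigh)
      have h2 : ζ ^ d < (t2 - 1 / 640000) ^ d := lt_of_mul_lt_mul_left h1 hk.le
      have h3 : ζ < t2 - 1 / 640000 := by
        refine lt_of_pow_lt_pow_left₀ d ?_ h2
        have : t1 ≤ t2 := h12
        rw [ht1] at this
        linarith
      linarith
    · have h1 : ENNReal.ofReal (kappa d * (r - eta0) ^ d) ≤ ENNReal.ofReal (kappa d * ζ ^ d) := by
        rw [← hv]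
        refine hfar.trans (measure_mono fun z hz => ⟨?_, hz.2⟩)
        exact closedBall_subset_closedBall (le_max_left _ _) hz.1
      have h2 := (ENNReal.ofReal_le_ofReal_iff (by positivity)).1 h1
      have h3 : (r - eta0) ^ d ≤ ζ ^ d := le_of_mul_le_mul_left h2 hk
      exact le_of_pow_le_pow_left₀ (by omega) hζ0 h3

end Pool.Agent.SX
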