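import Pool.Agent.Lib.SX.BM
import Pool.Agent.Lib.Saus.Coord
import Pool.Agent.Lib.Saus.Kappa

/-!
# The volume of an outer layer of a convex body which contains a segment
-/

set_option autoImplicit false

open MeasureTheory Metric Set Filter Topology
open scoped Pointwise RealInnerProductSpace ENNReal

namespace Pool.Agent.SX

open Pool.Agent.Saus

private theorem pow_shift {a v h : ℝ} (ha : 0 ≤ a) (hav : a ≤ v) (hh : 0 ≤ h) (m : ℕ) :
    (a + h) ^ m - a ^ m ≤ (v + h) ^ m - v ^ m := by
  induction m with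
  | zero => simp
  | succ m ih =>
    have e1 : (a + h) ^ (m + 1) - a ^ (m + 1) = (a + h) * ((a + h) ^ m - a ^ m) + h * a ^ m := by
      ring
    have e2 : (v + h) ^ (m + 1) - v ^ (m + 1) = (v + h) * ((v + h) ^ m - v ^ m) + h * v ^ m := by
      ring
    rw [e1, e2]
    have h0 : 0 ≤ (a + h) ^ m - a ^ m :=
      sub_nonneg.2 (pow_le_pow_left₀ ha (by linarith) m)
    have h1 : a ^ m ≤ v ^ m := pow_le_pow_left₀ ha hav m
    have h2 : (a + h) * ((a + h) ^ m - a ^ m) ≤ (v + h) * ((v + h) ^ m - v ^ m) :=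
      mul_le_mul (by linarith) ih h0 (by linarith)
    have h3 : h * a ^ m ≤ h * v ^ m := mul_le_mul_of_nonneg_left h1 hh
    linarith

private theorem add_ball {m : ℕ} (hm : 1 ≤ m) {P Q : Set (E m)} (hP : IsCompact P) (c : E m)
    {a h : ℝ} (ha : 0 < a) (hh : 0 < h) (hball : closedBall c a ⊆ P)
    (hQ : P + closedBall (0 : E m) h ⊆ Q) :
    volume P + ENNReal.ofReal (kappa m * ((a + h) ^ m - a ^ m)) ≤ volume Q := by
  have hm0 : m ≠ 0 := by omega
  have hk := kappa_pos m
  have hfin : volume P ≠ ∞ := hP.measure_lt_top.ne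
  set w : ℝ := (volume P).toReal / kappa m with hw
  have hw0 : 0 ≤ w := div_nonneg ENNReal.toReal_nonneg hk.le
  set v : ℝ := w ^ (1 / (m : ℝ)) with hv
  have hv0 : 0 ≤ v := Real.rpow_nonneg hw0 _
  have hvm : v ^ m = w := by rw [hv, one_div, Real.rpow_inv_natCast_pow hw0 hm0]
  have hvol : volume P = ENNReal.ofReal (kappa m * v ^ m) := by
    rw [hvm, hw, mul_div_cancel₀ _ hk.ne', ENNReal.ofReal_toReal hfin]
  have hav : a ≤ v := by
    have h1 : ENNReal.ofReal (kappa m * a ^ m) ≤ ENNReal.ofReal (kappa m * v ^ m) := by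
      rw [← hvol, ← volume_cball c ha.le]
      exact measure_mono hball
    have h2 : kappa m * a ^ m ≤ kappa m * v ^ m :=
      (ENNReal.ofReal_le_ofReal_iff (by positivity)).1 h1
    have h3 : a ^ m ≤ v ^ m := le_of_mul_le_mul_left h2 hk
    exact le_of_pow_le_pow_left₀ hm0 hv0 h3
  have hne : P.Nonempty := ⟨c, hball (mem_closedBall_self ha.le)⟩
  have hb := bm_E hm (A := (2 : ℝ) • P) (B := closedBall (0 : E m) (2 * h)) (s := 1 / 2)
    (α := 2 * v) (β := 2 * h) (hP.smul _) (isCompact_closedBall _ _) hne.smul_set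
    ⟨0, mem_closedBall_self (by positivity)⟩ (by norm_num) (by norm_num) (by positivity)
    (by positivity)
    (by
      rw [Measure.addHaar_smul, finrank_euclideanSpace_fin, hvol,
        ← ENNReal.ofReal_mul (abs_nonneg _), abs_of_nonneg (by positivity)]
      apply le_of_eq
      congr 1
      rw [mul_pow]; ring)
    (by rw [volume_cball _ (by positivity)])
  have hsub : (1 - 1 / 2 : ℝ) • (2 : ℝ) • P + (1 / 2 : ℝ) • closedBall (0 : E m) (2 * h) ⊆ Q := by
    refine Subset.trans ?_ hQ
    rintro _ ⟨x, ⟨y, ⟨z, hz, rfl⟩, rfl⟩, x', ⟨y', hy', rfl⟩, rfl⟩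
    refine ⟨z, hz, (1 / 2 : ℝ) • y', ?_, ?_⟩
    · rw [mem_closedBall, dist_zero_right] at hy' ⊢
      rw [norm_smul]
      norm_num
      linarith
    · simp only [smul_smul]
      norm_num
  calc volume P + ENNReal.ofReal (kappa m * ((a + h) ^ m - a ^ m))
      = ENNReal.ofReal (kappa m * v ^ m + kappa m * ((a + h) ^ m - a ^ m)) := by
        rw [hvol, ← ENNReal.ofReal_add (by positivity)]
        exact mul_nonneg hk.le (sub_nonneg.2 (pow_le_pow_left₀ ha.le (by linarith) m))
    _ ≤ ENNReal.ofReal (kappa m * ((1 - 1 / 2) * (2 * v) + 1 / 2 * (2 * h)) ^ m) := by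
        apply ENNReal.ofReal_le_ofReal
        have h1 := pow_shift ha.le hav hh.le m
        have h2 : (1 - 1 / 2) * (2 * v) + 1 / 2 * (2 * h) = v + h := by ring
        rw [h2, ← mul_add]
        refine mul_le_mul_of_nonneg_left ?_ hk.le
        linarith
    _ ≤ _ := hb
    _ ≤ volume Q := measure_mono hsub

variable {m : ℕ} (b : OrthonormalBasis (Fin (m + 1)) ℝ (E (m + 1)))

private theorem continuous_cminv : Continuous (cminv b) := by
  unfold cminv
  refine b.repr.symm.continuous.comp ?_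
  refine (PiLp.continuous_toLp 2 _).comp ?_
  refine continuous_pi fun i => ?_
  refine Fin.cases ?_ (fun j => ?_) i
  · simpa using continuous_fst
  · simp only [Fin.cons_succ]
    fun_prop

private theorem dist_cminv (s : ℝ) (q q' : E m) :
    dist (cminv b (s, q)) (cminv b (s, q')) = dist q q' := by
  have h := norm_sq_cm b (cminv b (s, q) - cminv b (s, q'))
  rw [cm_sub, cm_cminv, cm_cminv] at h
  simp only [Prod.fst_sub, Prod.snd_sub, sub_self] at h
  rw [dist_eq_norm, dist_eq_norm]
  have h2 : ‖cminv b (s, q) - cminv b (s, q')‖ ^ 2 = ‖q - q'‖ ^ 2 := by rw [h]; ring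
  exact (pow_left_inj₀ (norm_nonneg _) (norm_nonneg _) two_ne_zero).1 h2

private theorem norm_le_cminv (s : ℝ) (q : E m) : ‖q‖ ≤ ‖cminv b (s, q)‖ := by
  have h := norm_sq_cm b (cminv b (s, q))
  rw [cm_cminv] at h
  simp only at h
  refine le_of_pow_le_pow_left₀ two_ne_zero (norm_nonneg _) ?_
  nlinarith [sq_nonneg s]

private theorem slice_vol (hm : 1 ≤ m) {K : Set (E (m + 1))} (hK : IsCompact K)
    {a c : ℝ} (ha : 0 < a) (hac : a < c) {s : ℝ} {q0 : E m} (hq : cminv b (s, q0) ∈ K) :
    ENNReal.ofReal (kappa m * (c ^ m - a ^ m)) ≤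
      volume {q : E m | a ≤ infDist (cminv b (s, q)) K ∧ infDist (cminv b (s, q)) K ≤ c} := by
  have hne : K.Nonempty := ⟨_, hq⟩
  have hcont : Continuous fun q : E m => infDist (cminv b (s, q)) K :=
    (continuous_infDist_pt K).comp ((continuous_cminv b).comp (by fun_prop))
  obtain ⟨R, hR⟩ := hK.isBounded.subset_closedBall (0 : E (m + 1))
  have hP : IsCompact {q : E m | infDist (cminv b (s, q)) K ≤ a} := by
    refine Metric.isCompact_of_isClosed_isBounded (isClosed_le hcont continuous_const) ?_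
    refine (isBounded_closedBall (x := (0 : E m)) (r := R + a)).subset ?_
    intro q hq'
    obtain ⟨y, hy, hyd⟩ := hK.exists_infDist_eq_dist hne (cminv b (s, q))
    have h1 : ‖y‖ ≤ R := by simpa using hR hy
    have h2 : dist (cminv b (s, q)) y ≤ a := by rw [← hyd]; exact hq'
    have h3 : ‖cminv b (s, q)‖ ≤ ‖y‖ + dist (cminv b (s, q)) y := by
      rw [dist_eq_norm]
      have := norm_add_le y (cminv b (s, q) - y)
      simpa using this
    rw [mem_closedBall, dist_zero_right]
    linarith [norm_le_cminv b s q]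
  have h1 := add_ball hm (Q := {q : E m | infDist (cminv b (s, q)) K ≤ c}) hP q0 (h := c - a) ha
    (by linarith)
    (by
      intro q hq'
      show infDist (cminv b (s, q)) K ≤ a
      refine (infDist_le_dist_of_mem hq).trans ?_
      rw [dist_cminv]
      exact hq')
    (by
      rintro _ ⟨p, hp, w, hw, rfl⟩
      show infDist (cminv b (s, p + w)) K ≤ c
      have h2 : infDist (cminv b (s, p + w)) K ≤
          infDist (cminv b (s, p)) K + dist (cminv b (s, p + w)) (cminv b (s, p)) :=
        infDist_le_infDist_add_dist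
      have h3 : dist (cminv b (s, p + w)) (cminv b (s, p)) ≤ c - a := by
        rw [dist_cminv, dist_eq_norm, add_sub_cancel_left]
        simpa using hw
      have h4 : infDist (cminv b (s, p)) K ≤ a := hp
      linarith)
  rw [add_sub_cancel] at h1
  have h2 : volume {q : E m | infDist (cminv b (s, q)) K ≤ c} ≤
      volume {q : E m | infDist (cminv b (s, q)) K ≤ a} +
      volume {q : E m | a ≤ infDist (cminv b (s, q)) K ∧ infDist (cminv b (s, q)) K ≤ c} := by
    refine (measure_mono ?_).trans (measure_union_le _ _)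
    intro q hq'
    rcases le_total (infDist (cminv b (s, q)) K) a with h | h
    · exact Or.inl h
    · exact Or.inr ⟨h, hq'⟩
  exact (ENNReal.add_le_add_iff_left hP.measure_lt_top.ne).1 (h1.trans h2)

theorem slice_layer {m : ℕ} (hm : 1 ≤ m) {K : Set (E (m + 1))} (hK : IsCompact K)
    (hc : Convex ℝ K) {x1 x2 : E (m + 1)} (h1 : x1 ∈ K) (h2 : x2 ∈ K) {a b : ℝ} (ha : 0 < a)
    (hab : a < b) :
    ENNReal.ofReal (dist x1 x2 * kappa m * (b ^ m - a ^ m)) ≤ volume (clay K a b) := by
  rcases eq_or_ne x1 x2 with rfl | hne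
  · simp
  set L := dist x1 x2 with hL
  have hL0 : 0 < L := dist_pos.2 hne
  set u : E (m + 1) := (L⁻¹ : ℝ) • (x2 - x1) with hu
  have hu1 : ‖u‖ = 1 := by
    rw [hu, norm_smul, norm_inv, Real.norm_of_nonneg hL0.le, ← dist_eq_norm, dist_comm, ← hL,
      inv_mul_cancel₀ hL0.ne']
  obtain ⟨bb, hbb⟩ := exists_onb_fst u hu1
  have hcu : cm bb u = (1, 0) := by
    ext
    · rw [cm_fst, hbb, real_inner_self_eq_norm_sq, hu1]
      norm_num
    · rename_i i
      rw [cm_snd_apply, ← hbb, bb.inner_eq_ite]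
      simp [Fin.succ_ne_zero]
  set t0 := (cm bb x1).1 with ht0
  set q0 := (cm bb x1).2 with hq0
  have hpt : ∀ s ∈ Icc t0 (t0 + L), cminv bb (s, q0) ∈ K := by
    intro s hs
    have e1 : cminv bb (s, q0) = x1 + (s - t0) • u := by
      rw [← cminv_cm bb (x1 + (s - t0) • u)]
      congr 1
      rw [cm_add, cm_smul, hcu]
      ext
      · simp [← ht0]
      · simp [← hq0]
    have e2 : x1 + (s - t0) • u = x1 + ((s - t0) / L) • (x2 - x1) := by
      rw [hu, smul_smul, div_eq_mul_inv]
    rw [e1, e2]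
    refine hc.add_smul_sub_mem h1 h2 ⟨div_nonneg (by linarith [hs.1]) hL0.le, ?_⟩
    rw [div_le_one hL0]
    linarith [hs.2]
  have hcont : Continuous fun p : ℝ × E m => infDist (cminv bb p) K :=
    (continuous_infDist_pt K).comp (continuous_cminv bb)
  set S : Set (ℝ × E m) := {p | a ≤ infDist (cminv bb p) K ∧ infDist (cminv bb p) K ≤ b} with hS
  have hSm : MeasurableSet S :=
    ((isClosed_le continuous_const hcont).inter (isClosed_le hcont continuous_const)).measurableSet
  have hpre : clay K a b = cm bb ⁻¹' S := by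
    ext z
    show (a ≤ infDist z K ∧ infDist z K ≤ b) ↔
      (a ≤ infDist (cminv bb (cm bb z)) K ∧ infDist (cminv bb (cm bb z)) K ≤ b)
    rw [cminv_cm]
  rw [hpre, volume_preimage_cm, Measure.prod_apply hSm]
  calc ENNReal.ofReal (L * kappa m * (b ^ m - a ^ m))
      = ENNReal.ofReal (kappa m * (b ^ m - a ^ m)) * volume (Icc t0 (t0 + L)) := by
        rw [Real.volume_Icc, add_sub_cancel_left, ← ENNReal.ofReal_mul]
        · congr 1; ring
        · exact mul_nonneg (kappa_pos m).le
            (sub_nonneg.2 (pow_le_pow_left₀ ha.le hab.le m))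
    _ = ∫⁻ _ in Icc t0 (t0 + L), ENNReal.ofReal (kappa m * (b ^ m - a ^ m)) := by
        rw [setLIntegral_const]
    _ ≤ ∫⁻ s in Icc t0 (t0 + L), volume (Prod.mk s ⁻¹' S) := by
        refine setLIntegral_mono' measurableSet_Icc fun s hs => ?_
        exact slice_vol bb hm hK ha hab (hpt s hs)
    _ ≤ ∫⁻ s, volume (Prod.mk s ⁻¹' S) := setLIntegral_le_lintegral _ _

end Pool.Agent.SX
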