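import Pool.Agent.Lib.SX.Good
import Pool.Agent.Lib.SX.Point
import Pool.Agent.Lib.SX.Few
import Pool.Agent.Lib.SX.Slice
import Pool.Agent.Lib.SX.Base
import Pool.Agent.Lib.Saus.Main

/-!
# The strong sausage conjecture in large dimensions: one dimension, all conditions as hypotheses
-/

set_option autoImplicit false

open MeasureTheory Metric Set Filter Topology
open scoped Pointwise RealInnerProductSpace ENNReal

namespace Pool.Agent.SX

open Pool.Agent.Saus

/-- A bound for the number of balls if the area is small compared with the length. -/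
theorem width_ge {q r D L n : ℝ} (hr2 : r ≤ 2) (hq1 : 10 ^ 10 ≤ q) (hL0 : 0 < L)
    (hD0 : 0 < D) (hn : 0 < n) (hlen : 2 * n - L ≤ 2 * D ^ 2 * n)
    (hstar : q * L < 4 * r * D * n) : 7 / 10 ≤ D := by
  by_contra hcon
  push Not at hcon
  have h1 : D ^ 2 ≤ 49 / 100 := by nlinarith
  have h2 : 2 * D ^ 2 * n ≤ 98 / 100 * n := by nlinarith
  have h3 : 102 / 100 * n ≤ L := by linarith
  have h4 : 10 ^ 10 * (102 / 100 * n) ≤ q * L :=
    mul_le_mul hq1 h3 (by positivity) (by linarith)
  have h5 : 4 * r * D * n ≤ 4 * 2 * (7 / 10) * n := by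
    have h6 : r * D ≤ 2 * (7 / 10) := mul_le_mul hr2 hcon.le hD0.le (by norm_num)
    nlinarith
  nlinarith

theorem main_fixed {m : ℕ} {r : ℝ} (hr1 : 1.51 ≤ r) (hr2 : r ≤ 2)
    (hdens : Dst (m + 2) r * Sausage.cubeDens (m + 2) ≤ 1)
    (hk : kappa (m + 2) ≤ kappa (m + 1))
    (hq1 : 10 ^ 10 ≤ kappa m / kappa (m + 1))
    (hpow : (r - 2 / 100) ^ (m + 1) ≤ r ^ (m + 1) / 2)
    (hw2 : 120 * Dst (m + 2) r ≤ kappa (m + 2) * ((r + eta0) ^ (m + 2) - r ^ (m + 2)))
    (hbig : 41 ≤ (1 + eta0 / 800) ^ (m + 2))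
    (X : Finset (E (m + 2))) (hXne : X.Nonempty) (hX : IsPack X) :
    ((X.card : ℝ) - 4) * Dst (m + 2) r ≤ V X r := by
  classical
  have hr0 : 0 < r := by linarith
  set q := kappa m / kappa (m + 1) with hqdef
  have hkm := Saus.kappa_pos m
  have hk1 := Saus.kappa_pos (m + 1)
  have hk2' := Saus.kappa_pos (m + 2)
  have hkq : kappa m = q * kappa (m + 1) := by
    rw [hqdef]; field_simp
  have hq : 0 < q := by linarith
  have hDst : Dst (m + 2) r = 2 * kappa (m + 1) * r ^ (m + 1) := rfl
  have hDst0 : 0 < Dst (m + 2) r := by rw [hDst]; positivity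
  have hV0 : 0 ≤ V X r := by unfold V; exact ENNReal.toReal_nonneg
  -- the diametral pair
  obtain ⟨⟨x1, x2⟩, hp, hmax⟩ := Finset.exists_max_image (X ×ˢ X) (fun p => dist p.1 p.2)
    (hXne.product hXne)
  rw [Finset.mem_product] at hp
  obtain ⟨h1, h2⟩ := hp
  have hdiam : ∀ x ∈ X, ∀ y ∈ X, dist x y ≤ dist x1 x2 := fun x hx y hy =>
    hmax (x, y) (Finset.mem_product.2 ⟨hx, hy⟩)
  by_cases h12 : x1 = x2
  · -- one point
    have hcard : X.card = 1 := by
      rw [Finset.card_eq_one]
      refine ⟨x1, ?_⟩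
      ext y
      constructor
      · intro hy
        have := hdiam y hy x1 h1
        rw [← h12, dist_self] at this
        rw [Finset.mem_singleton]
        exact dist_le_zero.1 this
      · intro hy
        rw [Finset.mem_singleton] at hy
        rw [hy]; exact h1
    rw [hcard]
    push_cast
    nlinarith
  -- at least two points
  have hL0 : 0 < dist x1 x2 := dist_pos.2 h12
  obtain ⟨z, hzX, hzmax⟩ := Finset.exists_max_image X (fun z => area x1 x2 z) hXne
  set L := dist x1 x2 with hLdef
  set D := 2 * area x1 x2 z / L with hDdef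
  have hD0 : 0 ≤ D := by
    have := area_nonneg x1 x2 z
    positivity
  have hareaD : area x1 x2 z = L * D / 2 := by
    rw [hDdef]; field_simp
  have hzall : ∀ z' ∈ X, area x1 x2 z' ≤ L * D / 2 := fun z' hz' => hareaD ▸ hzmax z' hz'
  have hcard1 : (1 : ℝ) ≤ X.card := by exact_mod_cast hXne.card_pos
  have h3 := pack_length X hX h1 h2 h12 hdiam hD0 hzall
  by_cases hstar : 4 * r * D * ((X.card : ℝ) - 1) ≤ q * L
  · -- slicing
    have h4 := volume_triangle_add x1 x2 z hr0 h12 (hdiam x1 h1 z hzX) (hdiam x2 h2 z hzX)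
    have h5 := le_V_of_subset X (S := {x1, x2, z}) (by
      intro y hy
      simp only [Set.mem_insert_iff, Set.mem_singleton_iff] at hy
      rcases hy with rfl | rfl | rfl
      · exact h1
      · exact h2
      · exact hzX) (by have := area_nonneg x1 x2 z; positivity) h4
    refine le_trans ?_ h5
    rw [hareaD, hkq, hDst]
    have h6 : 2 * D ^ 2 * ((X.card : ℝ) - 1) * (kappa (m + 1) * r ^ (m + 1)) ≤
        L * D / 2 * (q * kappa (m + 1)) * r ^ m := by
      have h7 : 4 * r * D * ((X.card : ℝ) - 1) * (D / 2 * kappa (m + 1) * r ^ m) ≤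
          q * L * (D / 2 * kappa (m + 1) * r ^ m) :=
        mul_le_mul_of_nonneg_right hstar (by positivity)
      calc 2 * D ^ 2 * ((X.card : ℝ) - 1) * (kappa (m + 1) * r ^ (m + 1))
          = 4 * r * D * ((X.card : ℝ) - 1) * (D / 2 * kappa (m + 1) * r ^ m) := by ring
        _ ≤ q * L * (D / 2 * kappa (m + 1) * r ^ m) := h7
        _ = L * D / 2 * (q * kappa (m + 1)) * r ^ m := by ring
    have h8 : (2 * ((X.card : ℝ) - 1) - L) * (kappa (m + 1) * r ^ (m + 1)) ≤
        2 * D ^ 2 * ((X.card : ℝ) - 1) * (kappa (m + 1) * r ^ (m + 1)) :=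
      mul_le_mul_of_nonneg_right h3 (by positivity)
    have h9 : 0 < kappa (m + 1) * r ^ (m + 1) := by positivity
    have h10 : 0 < kappa (m + 2) * r ^ (m + 2) := by positivity
    nlinarith
  · -- many triangles
    push Not at hstar
    have hDpos : 0 < D := by
      rcases hD0.lt_or_eq with h | h
      · exact h
      · exfalso
        rw [← h] at hstar
        simp only [mul_zero, zero_mul] at hstar
        have : 0 < q * L := by positivity
        linarith
    have hn0 : 0 < (X.card : ℝ) - 1 := by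
      rcases (sub_nonneg.2 hcard1).lt_or_eq with h | h
      · exact h
      · exfalso
        rw [← h] at hstar
        have : 0 < q * L := by positivity
        linarith
    have hD7 : 7 / 10 ≤ D := width_ge hr2 hq1 hL0 hDpos hn0 h3 hstar
    set τ := 480 * r / q with hτdef
    have hτ0 : 0 < τ := by positivity
    have hτq : τ * q = 480 * r := by rw [hτdef]; field_simp
    have hτs : τ ≤ 960 / 10 ^ 10 := by
      rw [hτdef, div_le_div_iff₀ hq (by norm_num)]
      nlinarith
    obtain ⟨I, hIX, hIcard, hI⟩ := few_bad X hX h1 h2 hzX h12 hdiam hDpos hareaD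
      (s0 := 1 / 400) (by norm_num) (by norm_num) hτ0 (by linarith)
    choose! a ha b hb hda hdb hab using hI
    have hT : ∀ x : E (m + 2), ∃ Q : Set (E (m + 2)), x ∈ I → (MeasurableSet Q ∧
        Q ⊆ convexHull ℝ {x, a x, b x} + closedBall 0 r ∧
        Q ⊆ closedBall x (Real.sqrt (r ^ 2 + (1 / 400) ^ 2)) ∧
        ENNReal.ofReal (area x (a x) (b x) * kappa m * r ^ m) ≤ volume Q) := by
      intro x
      by_cases hx : x ∈ I
      · obtain ⟨Q, hQ⟩ := exists_tube x (a x) (b x) hr0 (hda x hx) (hdb x hx)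
        exact ⟨Q, fun _ => hQ⟩
      · exact ⟨∅, fun h => absurd h hx⟩
    choose Q hQ using hT
    have hK : IsCompact (convexHull ℝ (X : Set (E (m + 2)))) :=
      X.finite_toSet.isCompact_convexHull ℝ
    have hKc : Convex ℝ (convexHull ℝ (X : Set (E (m + 2)))) := convex_convexHull ℝ _
    have hKne : (convexHull ℝ (X : Set (E (m + 2)))).Nonempty := by simpa using hXne
    set K := convexHull ℝ (X : Set (E (m + 2))) with hKdef
    have hQK : ∀ x ∈ I, ∀ y ∈ Q x, infDist y K ≤ r := by
      intro x hx y hy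
      have hsub : convexHull ℝ {x, a x, b x} ⊆ K := by
        refine convexHull_min ?_ hKc
        intro y hy
        simp only [Set.mem_insert_iff, Set.mem_singleton_iff] at hy
        rcases hy with rfl | rfl | rfl
        · exact subset_convexHull ℝ _ (hIX hx)
        · exact ha x hx
        · exact hb x hx
      have h4 : y ∈ K + closedBall (0 : E (m + 2)) r :=
        Set.add_subset_add_right hsub ((hQ x hx).2.1 hy)
      rw [parallel_eq hK hKne hr0.le] at h4
      exact h4
    set w := 120 * Dst (m + 2) r with hwdef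
    have hw0 : 0 < w := by positivity
    have hQv : ∀ x ∈ I, ENNReal.ofReal (2 * w) ≤ volume (Q x) := by
      intro x hx
      refine le_trans (ENNReal.ofReal_le_ofReal ?_) (hQ x hx).2.2.2
      have h4 := hab x hx
      have h5 : 0 ≤ kappa m * r ^ m := by positivity
      have h6 : 2 * w = τ * kappa m * r ^ m := by
        rw [hwdef, hDst, hkq]
        calc 2 * (120 * (2 * kappa (m + 1) * r ^ (m + 1)))
            = 480 * r * (kappa (m + 1) * r ^ m) := by ring
          _ = (τ * q) * (kappa (m + 1) * r ^ m) := by rw [hτq]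
          _ = _ := by ring
      rw [h6]
      nlinarith
    -- the good points
    set G := X.filter (fun x => volume (far K x 2 (r - 2 / 100)) ≤
      ENNReal.ofReal (kappa (m + 2) * (r - eta0) ^ (m + 2))) with hGdef
    have hG := good_sum (d := m + 2) (by omega) X hX hXne hr1 hr2 hDst0 hdens hbig G
      (Finset.filter_subset _ _) (fun x hx => (Finset.mem_filter.1 hx).2)
    -- the other points with a tube
    have hw1 : kappa (m + 2) * r ^ (m + 2) < w := by
      rw [hwdef, hDst]
      have h4 : kappa (m + 2) * r ^ (m + 2) ≤ kappa (m + 1) * r ^ (m + 2) :=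
        mul_le_mul_of_nonneg_right hk (by positivity)
      have h5 : kappa (m + 1) * r ^ (m + 2) = r * (kappa (m + 1) * r ^ (m + 1)) := by ring
      have h6 : 0 < kappa (m + 1) * r ^ (m + 1) := by positivity
      nlinarith
    have hS : ∀ x : E (m + 2), ∃ S : Set (E (m + 2)), x ∈ I \ G → (MeasurableSet S ∧
        S ⊆ clay K (r - 3 / 100) r ∧ (∀ z ∈ S, dist z x ^ 2 - infDist z K ^ 2 ≤ 2 - 1 / 10) ∧
        ENNReal.ofReal w ≤ volume S) := by
      intro x
      by_cases hx : x ∈ I \ G
      · obtain ⟨hxI, hxG⟩ := Finset.mem_sdiff.1 hx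
        have hfar : ENNReal.ofReal (kappa (m + 2) * (r - eta0) ^ (m + 2)) ≤
            volume (far K x 2 (r - 2 / 100)) := by
          by_contra hcon
          push Not at hcon
          exact hxG (Finset.mem_filter.2 ⟨hIX hxI, hcon.le⟩)
        obtain ⟨S, hS⟩ := point_lemma (d := m + 2) (by omega) hK hKne x hr1 hr2 hw1 hw2 hfar
          (hQ x hxI).1 (hQK x hxI) (hQ x hxI).2.2.1 (hQv x hxI)
        exact ⟨S, fun _ => hS⟩
      · exact ⟨∅, fun h => absurd h hx⟩
    choose S hS using hS
    have hJ := rest_sum X hX hXne hr1 hr2 hw0.le (I \ G)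
      (Finset.sdiff_subset.trans hIX) S (fun x hx => (hS x hx).1) (fun x hx => (hS x hx).2.1)
      (fun x hx => (hS x hx).2.2.1) (fun x hx => (hS x hx).2.2.2)
    -- the layer is large
    have hlay := slice_layer (m := m + 1) (by omega) hK hKc (subset_convexHull ℝ _ h1)
      (subset_convexHull ℝ _ h2) (a := r - 2 / 100) (b := r) (by linarith) (by linarith)
    set vc := (volume (clay K (r - 2 / 100) r)).toReal with hvc
    have hvc0 : 0 ≤ vc := ENNReal.toReal_nonneg
    have hlay2 : L * kappa (m + 1) * (r ^ (m + 1) - (r - 2 / 100) ^ (m + 1)) ≤ vc := by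
      have h4 : 0 ≤ L * kappa (m + 1) * (r ^ (m + 1) - (r - 2 / 100) ^ (m + 1)) := by
        have h5 : (r - 2 / 100) ^ (m + 1) ≤ r ^ (m + 1) :=
          pow_le_pow_left₀ (by linarith) (by linarith) _
        have h6 : 0 ≤ r ^ (m + 1) - (r - 2 / 100) ^ (m + 1) := sub_nonneg.2 h5
        positivity
      rw [hvc, ← ENNReal.toReal_ofReal h4]
      exact ENNReal.toReal_mono (volume_clay_ne_top hK hKne _ _) hlay
    have hlay3 : L * Dst (m + 2) r ≤ 4 * vc := by
      rw [hDst]
      have h5 : L * kappa (m + 1) * (r ^ (m + 1) / 2) ≤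
          L * kappa (m + 1) * (r ^ (m + 1) - (r - 2 / 100) ^ (m + 1)) :=
        mul_le_mul_of_nonneg_left (by linarith) (by positivity)
      nlinarith
    -- the points without a tube
    have hbad : 8 * τ * L / (1 / 400 * D) ≤ L / 1000 := by
      rw [div_le_iff₀ (by positivity)]
      have h5 : 8 * τ * L ≤ 8 * (960 / 10 ^ 10) * L := by nlinarith
      have h6 : 8 * (960 / 10 ^ 10) * L ≤ L / 1000 * (1 / 400 * (7 / 10)) := by nlinarith
      have h7 : L / 1000 * (1 / 400 * (7 / 10)) ≤ L / 1000 * (1 / 400 * D) :=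
        mul_le_mul_of_nonneg_left (by linarith) (by positivity)
      linarith
    have hIG : (I.card : ℝ) ≤ G.card + (I \ G).card := by
      have h4 : I.card ≤ G.card + (I \ G).card := by
        have h5 := Finset.card_le_card (Finset.subset_union_right (s₁ := G) (s₂ := I))
        have h6 := Finset.card_sdiff_add_card I G
        rw [Finset.union_comm] at h6
        omega
      exact_mod_cast h4
    rw [V_eq_add hXne hr0.le (show r - 2 / 100 ≤ r by linarith)]
    have hcount : ((X.card : ℝ) - 4) ≤ G.card + (I \ G).card + L / 1000 := by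
      linarith
    have h11 : ((X.card : ℝ) - 4) * Dst (m + 2) r ≤
        (G.card + (I \ G).card + L / 1000) * Dst (m + 2) r :=
      mul_le_mul_of_nonneg_right hcount hDst0.le
    have h12' : ((I \ G).card : ℝ) * (120 * Dst (m + 2) r) ≤ 30 * vc := hJ
    have h13 : (G.card : ℝ) * Dst (m + 2) r ≤
      (volume {z | infDist z K < r - 2 / 100}).toReal + 1 / 4 * vc := hG
    nlinarith

end Pool.Agent.SX
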