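import Pool.Agent.Lib.SX.MainIOf
import Pool.Agent.Lib.SX.MainF
import Pool.Agent.Lib.SX.Kap

/-!
# The main inequality for all large dimensions
-/

set_option autoImplicit false

open MeasureTheory Metric Set Filter Topology
open scoped Pointwise RealInnerProductSpace ENNReal

namespace Pool.Agent.SX

open Pool.Agent.Saus

theorem main_ineq : ∃ d₀ : ℕ, 2 ≤ d₀ ∧ ∀ d ≥ d₀, ∀ r : ℝ, 1.51 ≤ r → r ≤ 2 →
    Dst d r * Sausage.cubeDens d ≤ 1 → ∀ X : Finset (E d), X.Nonempty → IsPack X →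
      ((X.card : ℝ) - 4) * Dst d r ≤ V X r :=
  main_ineq_of kappa_ratio_le fun _ _ hr1 hr2 hdens hk hq1 hpow hw2 hbig X hXne hX =>
    main_fixed hr1 hr2 hdens hk hq1 hpow hw2 hbig X hXne hX

end Pool.Agent.SX
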