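import Pool.Agent.Lib.SX.Fin0
import Pool.Agent.Lib.SX.MainI

/-!
# The limit of `Δ_n(ρ)` for all `ρ`
-/

set_option autoImplicit false

open MeasureTheory Metric Set Filter Topology
open scoped Pointwise RealInnerProductSpace ENNReal

namespace Pool.Agent.SX

open Pool.Agent.Saus

theorem limit_eq : ∃ d₀ : ℕ, ∀ d ≥ d₀, ∀ ρ : ℝ, 0 < ρ →
    Tendsto (fun n : ℕ => DeltaN d ρ n) atTop
      (𝓝 (min (2 * kappa (d - 1) * ρ ^ (d - 1)) (kappa d / Sausage.maxDensity d))) :=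
  limit_eq_of main_ineq

end Pool.Agent.SX
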