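import Pool.Agent.Lib.SX.Defs
import Pool.Agent.Lib.Saus.Main
import Pool.Agent.Lib.Saus.DeltaN
import Pool.Agent.Lib.MP_dcaa2d_sau.Z

/-!
# The limit of `Δ_n(ρ)` for all `ρ`, from the inequality for `1.51 ≤ ρ ≤ 2`
-/

set_option autoImplicit false

open MeasureTheory Metric Set Filter Topology
open scoped Pointwise RealInnerProductSpace ENNReal

namespace Pool.Agent.SX

open Pool.Agent.Saus

/-! ### The sausage -/

/-- The points of the sausage. -/
private noncomputable def pt (m : ℕ) (t : ℝ) : E (m + 1) :=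
  t • EuclideanSpace.single (0 : Fin (m + 1)) (1 : ℝ)

private theorem dist_pt (m : ℕ) (s t : ℝ) : dist (pt m s) (pt m t) = |s - t| := by
  rw [dist_eq_norm]
  unfold pt
  rw [← sub_smul, norm_smul]
  simp

private theorem pt_inj (m : ℕ) : Function.Injective (fun i : ℕ => pt m (2 * (i : ℝ))) := by
  intro i j hij
  have h := dist_pt m (2 * (i : ℝ)) (2 * (j : ℝ))
  simp only at hij
  rw [hij, dist_self] at h
  have h2 := abs_eq_zero.mp h.symm
  have h3 : (i : ℝ) = j := by linarith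
  exact_mod_cast h3

/-- The sausage. -/
private noncomputable def saus (m n : ℕ) : Finset (E (m + 1)) :=
  (Finset.range n).map ⟨fun i : ℕ => pt m (2 * (i : ℝ)), pt_inj m⟩

private theorem card_saus (m n : ℕ) : (saus m n).card = n := by
  simp [saus]

private theorem isPack_saus (m n : ℕ) : IsPack (saus m n) := by
  intro x hx y hy hxy
  simp only [saus, Finset.mem_map, Function.Embedding.coeFn_mk] at hx hy
  obtain ⟨i, -, rfl⟩ := hx
  obtain ⟨j, -, rfl⟩ := hy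
  rw [dist_pt]
  have hij : i ≠ j := fun h => hxy (by rw [h])
  have h1 : (1 : ℝ) ≤ |(i : ℝ) - j| := by
    rcases lt_or_gt_of_ne hij with h | h
    · have h2 : ((i : ℝ) + 1) ≤ j := by exact_mod_cast h
      rw [abs_of_nonpos (by linarith)]
      linarith
    · have h2 : ((j : ℝ) + 1) ≤ i := by exact_mod_cast h
      rw [abs_of_nonneg (by linarith)]
      linarith
  have h2 : (2 * (i : ℝ) - 2 * (j : ℝ)) = 2 * ((i : ℝ) - j) := by ring
  rw [h2, abs_mul, abs_two]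
  linarith

private theorem convexHull_saus (m n : ℕ) (hn : 1 ≤ n) :
    convexHull ℝ (saus m n : Set (E (m + 1))) ⊆
      segment ℝ (pt m 0) (pt m (2 * ((n : ℝ) - 1))) := by
  have hn1 : (1 : ℝ) ≤ n := by exact_mod_cast hn
  apply convexHull_min _ (convex_segment _ _)
  intro x hx
  simp only [saus, Finset.coe_map, Function.Embedding.coeFn_mk, mem_image, Finset.mem_coe,
    Finset.mem_range] at hx
  obtain ⟨i, hi, rfl⟩ := hx
  have hi1 : (i : ℝ) + 1 ≤ n := by exact_mod_cast hi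
  rw [segment_eq_image]
  by_cases h : n = 1
  · refine ⟨0, ⟨le_refl _, zero_le_one⟩, ?_⟩
    have hi0 : i = 0 := by omega
    subst hi0
    simp [pt]
  · have hn2 : (2 : ℝ) ≤ n := by exact_mod_cast (by omega : 2 ≤ n)
    refine ⟨(i : ℝ) / ((n : ℝ) - 1), ⟨div_nonneg (Nat.cast_nonneg _) (by linarith), ?_⟩, ?_⟩
    · rw [div_le_one (by linarith)]
      linarith
    · have hne : (n : ℝ) - 1 ≠ 0 := by linarith
      simp only [pt, smul_smul, zero_smul, smul_zero, zero_add]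
      congr 1
      field_simp

/-- The sausage as an upper bound. -/
theorem deltaN_le_saus {d : ℕ} (hd : 2 ≤ d) {ρ : ℝ} (hρ : 0 < ρ) {n : ℕ} (hn : 1 ≤ n) :
    DeltaN d ρ n ≤
      (2 * ((n : ℝ) - 1) * kappa (d - 1) * ρ ^ (d - 1) + kappa d * ρ ^ d) / n := by
  obtain ⟨m, rfl⟩ : ∃ m, d = m + 1 := ⟨d - 1, by omega⟩
  have hm : m + 1 - 1 = m := by omega
  rw [hm]
  have hn1 : (1 : ℝ) ≤ n := by exact_mod_cast hn
  have hk : ∀ j : ℕ, 0 ≤ kappa j := fun j => ENNReal.toReal_nonneg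
  have hV : V (saus m n) ρ ≤
      2 * ((n : ℝ) - 1) * kappa m * ρ ^ m + kappa (m + 1) * ρ ^ (m + 1) := by
    have h0 : 0 ≤ 2 * ((n : ℝ) - 1) * kappa m * ρ ^ m + kappa (m + 1) * ρ ^ (m + 1) := by
      have h1 := hk m
      have h2 := hk (m + 1)
      have h3 : 0 ≤ (n : ℝ) - 1 := by linarith
      positivity
    unfold V
    refine ENNReal.toReal_le_of_le_ofReal h0 ?_
    refine (measure_mono (add_subset_add_right (convexHull_saus m n hn))).trans ?_
    rw [volume_segment_add _ _ hρ.le, dist_pt, zero_sub, abs_neg, abs_of_nonneg (by linarith)]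
    refine ENNReal.ofReal_le_ofReal (le_of_eq ?_)
    ring
  unfold DeltaN
  have hle : V (saus m n) ρ / n ≤
      (2 * ((n : ℝ) - 1) * kappa m * ρ ^ m + kappa (m + 1) * ρ ^ (m + 1)) / n :=
    div_le_div_of_nonneg_right hV (by linarith)
  refine (csInf_le ?_ ?_).trans hle
  · refine ⟨0, ?_⟩
    rintro v ⟨X, -, -, rfl⟩
    exact div_nonneg ENNReal.toReal_nonneg (Nat.cast_nonneg _)
  · exact ⟨saus m n, card_saus m n, isPack_saus m n, rfl⟩

theorem tendsto_saus (d : ℕ) (ρ : ℝ) : Tendsto (fun n : ℕ =>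
    (2 * ((n : ℝ) - 1) * kappa (d - 1) * ρ ^ (d - 1) + kappa d * ρ ^ d) / n) atTop
      (𝓝 (2 * kappa (d - 1) * ρ ^ (d - 1))) := by
  have hlim : Tendsto (fun n : ℕ => 2 * kappa (d - 1) * ρ ^ (d - 1) +
      (kappa d * ρ ^ d - 2 * kappa (d - 1) * ρ ^ (d - 1)) / (n : ℝ)) atTop
      (𝓝 (2 * kappa (d - 1) * ρ ^ (d - 1) + 0)) :=
    tendsto_const_nhds.add (tendsto_const_div_atTop_nhds_zero_nat _)
  rw [add_zero] at hlim
  refine hlim.congr' ?_
  filter_upwards [eventually_ge_atTop 1] with n hn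
  have hn1 : (n : ℝ) ≠ 0 := by
    have : (1 : ℝ) ≤ n := by exact_mod_cast hn
    linarith
  field_simp
  ring

/-! ### The two notations -/

theorem DeltaN_eq_deltaN (d : ℕ) (ρ : ℝ) (n : ℕ) : DeltaN d ρ n = Sausage.deltaN d ρ n := by
  unfold DeltaN Sausage.deltaN
  congr 1
  ext v
  constructor
  · rintro ⟨X, hc, hp, hv⟩
    exact ⟨X, fun x hx y hy hxy => hp x hx y hy hxy, hc, hv⟩
  · rintro ⟨X, hp, hc, hv⟩
    exact ⟨X, hc, fun x hx y hy hxy => hp hx hy hxy, hv⟩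

theorem deltaN_mono {d : ℕ} (hd : 1 ≤ d) {r ρ : ℝ} (h : r ≤ ρ) (n : ℕ) :
    DeltaN d r n ≤ DeltaN d ρ n := by
  unfold DeltaN
  refine le_csInf ?_ ?_
  · obtain ⟨X, hX, hc⟩ := Sausage.exists_packing hd n
    exact ⟨_, X, hc, fun x hx y hy hxy => hX hx hy hxy, rfl⟩
  · rintro v ⟨X, hc, hX, rfl⟩
    have h1 : sInf {v : ℝ | ∃ X : Finset (E d), X.card = n ∧ IsPack X ∧ v = V X r / n} ≤
        V X r / n := by
      apply csInf_le
      · refine ⟨0, ?_⟩
        rintro v ⟨X, -, -, rfl⟩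
        exact div_nonneg ENNReal.toReal_nonneg (Nat.cast_nonneg _)
      · exact ⟨X, hc, hX, rfl⟩
    refine h1.trans (div_le_div_of_nonneg_right ?_ (Nat.cast_nonneg _))
    exact ENNReal.toReal_mono (Sausage.parBody_ne_top X ρ)
      (measure_mono (add_subset_add_left (closedBall_subset_closedBall h)))

theorem le_deltaN_of {d : ℕ} (hd : 1 ≤ d) {r : ℝ}
    (h : ∀ X : Finset (E d), X.Nonempty → IsPack X → ((X.card : ℝ) - 4) * Dst d r ≤ V X r)
    {n : ℕ} (hn : 1 ≤ n) : ((n : ℝ) - 4) * Dst d r / n ≤ DeltaN d r n := by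
  unfold DeltaN
  refine le_csInf ?_ ?_
  · obtain ⟨X, hX, hc⟩ := Sausage.exists_packing hd n
    exact ⟨_, X, hc, fun x hx y hy hxy => hX hx hy hxy, rfl⟩
  · rintro v ⟨X, hc, hX, rfl⟩
    refine div_le_div_of_nonneg_right ?_ (Nat.cast_nonneg _)
    have hne : X.Nonempty := by
      rw [← Finset.card_pos]
      omega
    have h1 := h X hne hX
    rwa [hc] at h1

theorem fin_tendsto_low (c : ℝ) :
    Tendsto (fun n : ℕ => ((n : ℝ) - 4) * c / n) atTop (𝓝 c) := by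
  have hlim : Tendsto (fun n : ℕ => c + (-4 * c) / (n : ℝ)) atTop (𝓝 (c + 0)) :=
    tendsto_const_nhds.add (tendsto_const_div_atTop_nhds_zero_nat _)
  rw [add_zero] at hlim
  refine hlim.congr' ?_
  filter_upwards [eventually_ge_atTop 1] with n hn
  have hn1 : (n : ℝ) ≠ 0 := by
    have : (1 : ℝ) ≤ n := by exact_mod_cast hn
    linarith
  field_simp
  ring

theorem le_pow_599 : 1.51 ≤ (2 : ℝ) ^ (0.599 : ℝ) := by
  have h1 : ((1.51 : ℝ) ^ (37 : ℕ)) ≤ (2 : ℝ) ^ (22 : ℕ) := by norm_num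
  have h2 : (1.51 : ℝ) ≤ (2 : ℝ) ^ ((22 : ℝ) / 37) := by
    have h3 : ((2 : ℝ) ^ ((22 : ℝ) / 37)) ^ (37 : ℕ) = (2 : ℝ) ^ (22 : ℕ) := by
      rw [← Real.rpow_natCast, ← Real.rpow_mul (by norm_num), ← Real.rpow_natCast]
      norm_num
    rw [← h3] at h1
    exact (pow_le_pow_iff_left₀ (by norm_num) (by positivity) (by norm_num)).1 h1
  exact h2.trans (Real.rpow_le_rpow_of_exponent_le (by norm_num) (by norm_num))

theorem packLe_two (d : ℕ) : Sausage.PackLe d 2 := by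
  intro X _ _
  refine measure_mono ?_
  intro z hz
  simp only [Set.mem_iUnion, exists_prop] at hz
  obtain ⟨x, hx, hz⟩ := hz
  refine Set.mem_add.2 ⟨x, subset_convexHull ℝ _ hx, z - x, ?_, by abel⟩
  rw [mem_closedBall, dist_zero_right, ← dist_eq_norm]
  exact hz

/-! ### The limit -/

/-- The upper bound by both constructions. -/
theorem fin_upper {d : ℕ} (hd : 2 ≤ d) {ρ : ℝ} (hρ : 0 < ρ) {a : ℝ}
    (ha : min (Dst d ρ) (1 / Sausage.cubeDens d) < a) : ∀ᶠ n in atTop, DeltaN d ρ n < a := by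
  rcases min_lt_iff.1 ha with h | h
  · filter_upwards [(tendsto_saus d ρ).eventually (Iio_mem_nhds (show 2 * kappa (d - 1) *
      ρ ^ (d - 1) < a from h)), eventually_ge_atTop 1] with n hn hn1
    exact (deltaN_le_saus hd hρ hn1).trans_lt hn
  · filter_upwards [Sausage.deltaN_le (by omega : 1 ≤ d) hρ.le (half_pos (sub_pos.2 h))]
      with n hn
    rw [DeltaN_eq_deltaN]
    linarith

theorem fin_tendsto {d : ℕ} (hd : 2 ≤ d) {ρ : ℝ} (hρ : 0 < ρ) {u : ℕ → ℝ}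
    (hu : Tendsto u atTop (𝓝 (min (Dst d ρ) (1 / Sausage.cubeDens d))))
    (h : ∀ᶠ n in atTop, u n ≤ DeltaN d ρ n) :
    Tendsto (fun n : ℕ => DeltaN d ρ n) atTop
      (𝓝 (min (Dst d ρ) (1 / Sausage.cubeDens d))) := by
  refine tendsto_order.2 ⟨fun a ha => ?_, fun a ha => fin_upper hd hρ ha⟩
  filter_upwards [h, hu.eventually (Ioi_mem_nhds ha)] with n h1 h2
  exact lt_of_lt_of_le h2 h1

theorem limit_eq_of
    (hmain : ∃ d₀ : ℕ, 2 ≤ d₀ ∧ ∀ d ≥ d₀, ∀ r : ℝ, 1.51 ≤ r → r ≤ 2 →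
      Dst d r * Sausage.cubeDens d ≤ 1 → ∀ X : Finset (E d), X.Nonempty → IsPack X →
        ((X.card : ℝ) - 4) * Dst d r ≤ V X r) :
    ∃ d₀ : ℕ, ∀ d ≥ d₀, ∀ ρ : ℝ, 0 < ρ →
      Tendsto (fun n : ℕ => DeltaN d ρ n) atTop
        (𝓝 (min (2 * kappa (d - 1) * ρ ^ (d - 1)) (kappa d / Sausage.maxDensity d))) := by
  obtain ⟨d₁, hd₁, h1⟩ := hmain
  obtain ⟨d₂, h2⟩ := Saus.main_ineq
  refine ⟨max d₁ d₂, fun d hd ρ hρ => ?_⟩
  have hdd1 : d₁ ≤ d := (le_max_left _ _).trans hd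
  have hdd2 : d₂ ≤ d := (le_max_right _ _).trans hd
  have hd2 : 2 ≤ d := hd₁.trans hdd1
  have hd1 : 1 ≤ d := by omega
  have hL : kappa d / Sausage.maxDensity d = 1 / Sausage.cubeDens d :=
    Sausage.kappa_div_maxDensity hd1
  have hD : 0 < Sausage.cubeDens d := Sausage.cubeDens_pos hd1
  rw [hL]
  change Tendsto (fun n : ℕ => DeltaN d ρ n) atTop
    (𝓝 (min (Dst d ρ) (1 / Sausage.cubeDens d)))
  -- small `ρ`
  have hsmall : ∀ r : ℝ, 0 < r → r ≤ (2 : ℝ) ^ (0.599 : ℝ) →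
      Tendsto (fun n : ℕ => DeltaN d r n) atTop (𝓝 (Dst d r)) := fun r hr hr2 =>
    (deltaN_eq hd2 hr (h2 d hdd2 r hr hr2)).2
  have hfle : ∀ r : ℝ, 0 < r → r ≤ (2 : ℝ) ^ (0.599 : ℝ) → Dst d r ≤ 1 / Sausage.cubeDens d := by
    intro r hr hr2
    refine le_of_forall_pos_le_add fun ε hε => ?_
    refine le_of_tendsto (hsmall r hr hr2) ?_
    filter_upwards [Sausage.deltaN_le hd1 hr.le hε] with n hn
    rwa [DeltaN_eq_deltaN]
  rcases le_or_gt ρ ((2 : ℝ) ^ (0.599 : ℝ)) with hρ1 | hρ1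
  · rw [min_eq_left (hfle ρ hρ hρ1)]
    exact hsmall ρ hρ hρ1
  have h151 : 1.51 ≤ ρ := le_pow_599.trans hρ1.le
  rcases le_or_gt 2 ρ with hρ2 | hρ2
  · have h3 : Tendsto (Sausage.deltaN d ρ) atTop (𝓝 (1 / Sausage.cubeDens d)) := by
      rw [← hL]
      exact Sausage.tendsto_deltaN hd2 two_pos (packLe_two d) hρ2
    have h4 : Tendsto (fun n : ℕ => DeltaN d ρ n) atTop (𝓝 (1 / Sausage.cubeDens d)) :=
      h3.congr fun n => (DeltaN_eq_deltaN d ρ n).symm
    have h5 : 1 / Sausage.cubeDens d ≤ Dst d ρ := by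
      refine le_of_tendsto_of_tendsto h4 (tendsto_saus d ρ) ?_
      filter_upwards [eventually_ge_atTop 1] with n hn
      exact deltaN_le_saus hd2 hρ hn
    rw [min_eq_right h5]
    exact h4
  rcases le_or_gt (Dst d ρ) (1 / Sausage.cubeDens d) with hf | hf
  · refine fin_tendsto hd2 hρ (u := fun n : ℕ => ((n : ℝ) - 4) * Dst d ρ / n) ?_ ?_
    · rw [min_eq_left hf]
      exact fin_tendsto_low _
    · filter_upwards [eventually_ge_atTop 1] with n hn
      exact le_deltaN_of hd1 (h1 d hdd1 ρ h151 hρ2.le ((le_div_iff₀ hD).1 hf)) hn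
  · have hc : Continuous (Dst d) := by
      unfold Dst
      fun_prop
    obtain ⟨r, ⟨hr1, hr2⟩, hr3⟩ := intermediate_value_Icc hρ1.le hc.continuousOn
      ⟨hfle _ (by positivity) le_rfl, hf.le⟩
    have hr151 : 1.51 ≤ r := le_pow_599.trans hr1
    refine fin_tendsto hd2 hρ (u := fun n : ℕ => ((n : ℝ) - 4) * Dst d r / n) ?_ ?_
    · rw [min_eq_right hf.le, ← hr3]
      exact fin_tendsto_low _
    · filter_upwards [eventually_ge_atTop 1] with n hn
      refine le_trans ?_ (deltaN_mono hd1 hr2 n)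
      refine le_deltaN_of hd1 (h1 d hdd1 r hr151 (hr2.trans hρ2.le) ?_) hn
      rw [hr3, one_div_mul_cancel hD.ne']

end Pool.Agent.SX
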