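import Pool.Agent.Lib.SX.MainIOf
import Pool.Agent.Lib.SX.Exact
import Pool.Agent.Lib.SX.Kap
import Pool.Agent.Lib.SX.Fin

/-!
# The exact inequality for all large dimensions and all radii up to the critical radius
-/

set_option autoImplicit false

open MeasureTheory Metric Set Filter Topology
open scoped Pointwise RealInnerProductSpace ENNReal

namespace Pool.Agent.SX

open Pool.Agent.Saus

/-- The asymptotic conditions hold for all large dimensions. -/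
theorem main_gen {P : ∀ d : ℕ, ℝ → Finset (E d) → Prop}
    (hKR : ∀ᶠ m : ℕ in atTop, kappa m ≤ ((m : ℝ) + 2) * kappa (m + 1))
    (hMF : ∀ (m : ℕ) (r : ℝ), 1.51 ≤ r → r ≤ 2 →
      Dst (m + 2) r * Sausage.cubeDens (m + 2) ≤ 1 → kappa (m + 2) ≤ kappa (m + 1) →
      10 ^ 10 ≤ kappa m / kappa (m + 1) → (r - 2 / 100) ^ (m + 1) ≤ r ^ (m + 1) / 2 →
      120 * Dst (m + 2) r ≤ kappa (m + 2) * ((r + eta0) ^ (m + 2) - r ^ (m + 2)) →
      41 ≤ (1 + eta0 / 800) ^ (m + 2) → ∀ X : Finset (E (m + 2)), X.Nonempty → IsPack X →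
      P (m + 2) r X) :
    ∃ d₀ : ℕ, 2 ≤ d₀ ∧ ∀ d ≥ d₀, ∀ r : ℝ, 1.51 ≤ r → r ≤ 2 →
    Dst d r * Sausage.cubeDens d ≤ 1 → ∀ X : Finset (E d), X.Nonempty → IsPack X →
      P d r X := by
  have he := eta0_pos
  have e1 : ∀ᶠ m : ℕ in atTop, (10 : ℝ) ^ 10 ≤ kappa m / kappa (m + 1) :=
    tendsto_kappa_ratio.eventually_ge_atTop _
  have e2 : ∀ᶠ m : ℕ in atTop, (10 : ℝ) ^ 10 ≤ kappa (m + 1) / kappa (m + 1 + 1) :=
    (tendsto_add_atTop_nat 1).eventually e1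
  have e3 : ∀ᶠ m : ℕ in atTop, (0.99 : ℝ) ^ (m + 1) ≤ 1 / 2 := by
    have h := (tendsto_pow_atTop_nhds_zero_of_lt_one (by norm_num : (0 : ℝ) ≤ 0.99)
      (by norm_num)).eventually (gt_mem_nhds (by norm_num : (0 : ℝ) < 1 / 2))
    exact ((tendsto_add_atTop_nat 1).eventually h).mono fun _ h => h.le
  have e4 : ∀ᶠ m : ℕ in atTop, 240 * ((m : ℝ) + 3) ≤ (1 + eta0 / 2) ^ (m + 2) - 1 :=
    lin_le_pow (by linarith) 240
  have e5 : ∀ᶠ m : ℕ in atTop, (41 : ℝ) ≤ (1 + eta0 / 800) ^ (m + 2) :=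
    (tendsto_add_atTop_nat 2).eventually
      ((tendsto_pow_atTop_atTop_of_one_lt (by linarith : (1 : ℝ) < 1 + eta0 / 800)).eventually_ge_atTop
        41)
  have e6 : ∀ᶠ m : ℕ in atTop, kappa (m + 1) ≤ (((m + 1 : ℕ) : ℝ) + 2) * kappa (m + 1 + 1) :=
    (tendsto_add_atTop_nat 1).eventually hKR
  obtain ⟨m₀, hm₀⟩ := eventually_atTop.1 (e1.and (e2.and (e3.and (e4.and (e5.and e6)))))
  refine ⟨m₀ + 2, by omega, fun d hd r hr1 hr2 hdens X hXne hX => ?_⟩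
  obtain ⟨m, rfl⟩ : ∃ m, d = m + 2 := ⟨d - 2, by omega⟩
  obtain ⟨h1, h2, h3, h4, h5, h6⟩ := hm₀ m (by omega)
  have k0 := kappa_pos m
  have k1 := kappa_pos (m + 1)
  have k2 := kappa_pos (m + 2)
  have hr0 : 0 < r := by linarith
  refine hMF m r hr1 hr2 hdens ?_ h1 ?_ ?_ h5 X hXne hX
  · rw [le_div_iff₀ k2] at h2
    nlinarith
  · have h7 : r - 2 / 100 ≤ 0.99 * r := by linarith
    calc (r - 2 / 100) ^ (m + 1) ≤ (0.99 * r) ^ (m + 1) :=
          pow_le_pow_left₀ (by linarith) h7 _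
      _ = 0.99 ^ (m + 1) * r ^ (m + 1) := mul_pow _ _ _
      _ ≤ 1 / 2 * r ^ (m + 1) := mul_le_mul_of_nonneg_right h3 (by positivity)
      _ = r ^ (m + 1) / 2 := by ring
  · have h8 : Dst (m + 2) r = 2 * kappa (m + 1) * r ^ (m + 1) := rfl
    have h9 : (1 + eta0 / 2) * r ≤ r + eta0 := by nlinarith
    have h10 : (1 + eta0 / 2) ^ (m + 2) * r ^ (m + 2) ≤ (r + eta0) ^ (m + 2) := by
      rw [← mul_pow]
      exact pow_le_pow_left₀ (by positivity) h9 _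
    have h11 : 240 * ((m : ℝ) + 3) * (r ^ (m + 1)) ≤ (r + eta0) ^ (m + 2) - r ^ (m + 2) := by
      have h12 : 240 * ((m : ℝ) + 3) * r ^ (m + 1) ≤ 240 * ((m : ℝ) + 3) * r ^ (m + 2) := by
        have : r ^ (m + 1) ≤ r ^ (m + 2) := pow_le_pow_right₀ (by linarith) (by omega)
        exact mul_le_mul_of_nonneg_left this (by positivity)
      have h13 := mul_le_mul_of_nonneg_right h4 (by positivity : 0 ≤ r ^ (m + 2))
      linarith
    push_cast at h6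
    rw [h8]
    calc 120 * (2 * kappa (m + 1) * r ^ (m + 1)) = 240 * r ^ (m + 1) * kappa (m + 1) := by ring
      _ ≤ 240 * r ^ (m + 1) * (((m : ℝ) + 1 + 2) * kappa (m + 2)) :=
          mul_le_mul_of_nonneg_left h6 (by positivity)
      _ = kappa (m + 2) * (240 * ((m : ℝ) + 3) * r ^ (m + 1)) := by ring
      _ ≤ _ := mul_le_mul_of_nonneg_left h11 k2.le


/-- The sausage is optimal for `1.51 ≤ r ≤ 2` if its volume per ball is at most `1 / cubeDens`. -/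
theorem main_ineq_exact : ∃ d₀ : ℕ, 2 ≤ d₀ ∧ ∀ d ≥ d₀, ∀ r : ℝ, 1.51 ≤ r → r ≤ 2 →
    Dst d r * Sausage.cubeDens d ≤ 1 → ∀ X : Finset (E d), X.Nonempty → IsPack X →
      2 * ((X.card : ℝ) - 1) * kappa (d - 1) * r ^ (d - 1) + kappa d * r ^ d ≤ V X r :=
  main_gen (P := fun d r X =>
      2 * ((X.card : ℝ) - 1) * kappa (d - 1) * r ^ (d - 1) + kappa d * r ^ d ≤ V X r)
    kappa_ratio_le fun _ _ hr1 hr2 hdens hk hq1 hpow hw2 hbig X hXne hX =>
      main_exact hr1 hr2 hdens hk hq1 hpow hw2 hbig X hXne hX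

/-- **The exact inequality.** In all large dimensions the sausage is optimal for every number of
balls and every radius `ρ` with `2 κ_(d-1) ρ^(d-1) ≤ κ_d / δ(B^d)`. -/
theorem exact : ∃ d₀ : ℕ, 2 ≤ d₀ ∧ ∀ d ≥ d₀,
    (∀ ρ : ℝ, 0 < ρ →
      2 * kappa (d - 1) * ρ ^ (d - 1) ≤ kappa d / Sausage.maxDensity d →
      ∀ X : Finset (E d), X.Nonempty → IsPack X →
        2 * ((X.card : ℝ) - 1) * kappa (d - 1) * ρ ^ (d - 1) + kappa d * ρ ^ d ≤ V X ρ) ∧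
    (∀ ρ : ℝ, 0 < ρ → Tendsto (fun n : ℕ => DeltaN d ρ n) atTop
        (𝓝 (min (2 * kappa (d - 1) * ρ ^ (d - 1)) (kappa d / Sausage.maxDensity d)))) ∧
    (2 * kappa (d - 1) * ((2 : ℝ) ^ (0.599 : ℝ)) ^ (d - 1) ≤
      kappa d / Sausage.maxDensity d) := by
  obtain ⟨d₁, hd₁, h1⟩ := main_ineq_exact
  obtain ⟨d₂, h2⟩ := Saus.main_ineq
  obtain ⟨d₃, h3⟩ := limit_eq
  refine ⟨max d₁ (max d₂ d₃), hd₁.trans (le_max_left _ _), fun d hd => ?_⟩
  have hdd1 : d₁ ≤ d := (le_max_left _ _).trans hd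
  have hdd2 : d₂ ≤ d := ((le_max_left _ _).trans (le_max_right _ _)).trans hd
  have hdd3 : d₃ ≤ d := ((le_max_right _ _).trans (le_max_right _ _)).trans hd
  have hd2 : 2 ≤ d := hd₁.trans hdd1
  have hd1 : 1 ≤ d := by omega
  have hL : kappa d / Sausage.maxDensity d = 1 / Sausage.cubeDens d :=
    Sausage.kappa_div_maxDensity hd1
  have hD : 0 < Sausage.cubeDens d := Sausage.cubeDens_pos hd1
  have hk1 := Saus.kappa_pos (d - 1)
  have hlim := h3 d hdd3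
  refine ⟨fun ρ hρ hle X hXne hX => ?_, hlim, ?_⟩
  · rcases le_or_gt ρ ((2 : ℝ) ^ (0.599 : ℝ)) with hρ1 | hρ1
    · exact h2 d hdd2 ρ hρ hρ1 X hXne hX
    have h151 : 1.51 ≤ ρ := le_pow_599.trans hρ1.le
    -- `ρ ≤ 2`
    have hρ2 : ρ ≤ 2 := by
      have h4 : Tendsto (Sausage.deltaN d 2) atTop (𝓝 (kappa d / Sausage.maxDensity d)) :=
        Sausage.tendsto_deltaN hd2 two_pos (packLe_two d) le_rfl
      have h5 : Tendsto (fun n : ℕ => DeltaN d 2 n) atTop (𝓝 (kappa d / Sausage.maxDensity d)) :=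
        h4.congr fun n => (DeltaN_eq_deltaN d 2 n).symm
      have h6 := tendsto_nhds_unique h5 (hlim 2 two_pos)
      have h7 : kappa d / Sausage.maxDensity d ≤ 2 * kappa (d - 1) * 2 ^ (d - 1) := by
        rw [h6]; exact min_le_left _ _
      have h8 : 2 * kappa (d - 1) * ρ ^ (d - 1) ≤ 2 * kappa (d - 1) * 2 ^ (d - 1) := hle.trans h7
      have h9 : ρ ^ (d - 1) ≤ 2 ^ (d - 1) := le_of_mul_le_mul_left h8 (by positivity)
      exact le_of_pow_le_pow_left₀ (by omega) (by norm_num) h9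
    refine h1 d hdd1 ρ h151 hρ2 ?_ X hXne hX
    rw [hL] at hle
    exact (le_div_iff₀ hD).1 hle
  · have hpos : (0 : ℝ) < (2 : ℝ) ^ (0.599 : ℝ) := by positivity
    have h4 := (deltaN_eq hd2 hpos (h2 d hdd2 _ hpos le_rfl)).2
    have h5 := tendsto_nhds_unique h4 (hlim _ hpos)
    have h6 : 2 * kappa (d - 1) * ((2 : ℝ) ^ (0.599 : ℝ)) ^ (d - 1) =
      min (2 * kappa (d - 1) * ((2 : ℝ) ^ (0.599 : ℝ)) ^ (d - 1))
        (kappa d / Sausage.maxDensity d) := h5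
    rw [h6]
    exact min_le_right _ _

end Pool.Agent.SX
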