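import Pool.Agent.Lib.SX.BM

/-!
# The layer below a far set
-/

set_option autoImplicit false

open MeasureTheory Metric Set Filter Topology
open scoped Pointwise RealInnerProductSpace ENNReal

namespace Pool.Agent.SX

open Pool.Agent.Saus

theorem isCompact_far {d : ℕ} (K : Set (E d)) (x : E d) (t a : ℝ) : IsCompact (far K x t a) :=
  (isCompact_closedBall x t).inter_right
    (isClosed_le continuous_const (continuous_infDist_pt K))

theorem layer_bm {d : ℕ} (hd : 1 ≤ d) (K : Set (E d)) (hK : K.Nonempty) (x : E d)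
    {t ε a ζ : ℝ} (ht : 0 < t) (hε : 0 < ε) (hεt : ε < 2 * t) (hζ0 : 0 < ζ) (hζt : ζ ≤ t)
    (hv : volume (far K x t a) = ENNReal.ofReal (kappa d * ζ ^ d)) :
    ENNReal.ofReal (kappa d * ((ζ + ε / (2 * t) * (t - ζ)) ^ d - ζ ^ d)) ≤
      volume (closedBall x t ∩ lay K (a - ε) a) := by
  have hk := kappa_pos d
  set s := ε / (2 * t) with hs
  have hs0 : 0 < s := by positivity
  have hs1 : s < 1 := by
    rw [hs, div_lt_one (by positivity)]
    exact hεt
  have hst : s * (2 * t) = ε := by
    rw [hs]
    field_simp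
  have hA := isCompact_far K x t a
  have hA' : (far K x t a).Nonempty := by
    rw [Set.nonempty_iff_ne_empty]
    intro h
    rw [h, measure_empty] at hv
    have h1 : 0 < ENNReal.ofReal (kappa d * ζ ^ d) := ENNReal.ofReal_pos.2 (by positivity)
    rw [← hv] at h1
    exact lt_irrefl _ h1
  have h1 := bm_E hd hA (isCompact_closedBall x t) hA' ⟨x, mem_closedBall_self ht.le⟩ hs0 hs1
    hζ0.le ht.le hv.ge (volume_cball x ht.le).ge
  have hsub : (1 - s) • far K x t a + s • closedBall x t ⊆
      far K x t a ∪ (closedBall x t ∩ lay K (a - ε) a) := by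
    rintro _ ⟨_, ⟨u, hu, rfl⟩, _, ⟨v, hv', rfl⟩, rfl⟩
    have hu1 : u ∈ closedBall x t := hu.1
    have hb : (1 - s) • u + s • v ∈ closedBall x t :=
      (convex_closedBall x t) hu1 hv' (by linarith) hs0.le (by ring)
    have hd1 : dist u ((1 - s) • u + s • v) ≤ ε := by
      have h2 : u - ((1 - s) • u + s • v) = s • (u - v) := by module
      rw [dist_eq_norm, h2, norm_smul, Real.norm_of_nonneg hs0.le, ← dist_eq_norm, ← hst]
      refine mul_le_mul_of_nonneg_left ?_ hs0.le
      have h3 := dist_triangle_right u v x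
      rw [mem_closedBall] at hu1 hv'
      linarith
    have h4 : infDist u K ≤ infDist ((1 - s) • u + s • v) K + dist u ((1 - s) • u + s • v) :=
      infDist_le_infDist_add_dist
    have h5 : a ≤ infDist u K := hu.2
    by_cases h6 : a ≤ infDist ((1 - s) • u + s • v) K
    · exact Or.inl ⟨hb, h6⟩
    · exact Or.inr ⟨hb, by linarith, not_le.1 h6⟩
  have h2 : volume ((1 - s) • far K x t a + s • closedBall x t) ≤
      volume (far K x t a) + volume (closedBall x t ∩ lay K (a - ε) a) :=
    (measure_mono hsub).trans (measure_union_le _ _)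
  have h3 : (1 - s) * ζ + s * t = ζ + s * (t - ζ) := by ring
  rw [h3] at h1
  rw [mul_sub, ENNReal.ofReal_sub _ (by positivity)]
  rw [tsub_le_iff_left, ← hv]
  exact h1.trans h2

end Pool.Agent.SX
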