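import Pool.Agent.Lib.SX.Defs

/-!
# The volumes of the layers around a convex body increase
-/

set_option autoImplicit false

open MeasureTheory Metric Set Filter Topology
open scoped Pointwise RealInnerProductSpace ENNReal

namespace Pool.Agent.SX

open Pool.Agent.Saus

/-- maps with Lipschitz constant `1` do not increase the volume -/
theorem volume_image_le {d : ℕ} {f : E d → E d} {s : Set (E d)} (hf : LipschitzOnWith 1 f s) :
    volume (f '' s) ≤ volume s := by
  have hfr : Module.finrank ℝ (E d) = d := by simp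
  have h1 : (Measure.hausdorffMeasure (Module.finrank ℝ (E d) : ℝ) : Measure (E d)) (f '' s) ≤
      (Measure.hausdorffMeasure (Module.finrank ℝ (E d) : ℝ) : Measure (E d)) s := by
    have := hf.hausdorffMeasure_image_le (d := (Module.finrank ℝ (E d) : ℝ)) (by positivity)
    simpa using this
  have h2 : (volume : Measure (E d)) =
      (Measure.addHaarScalarFactor (volume : Measure (E d))
        (Measure.hausdorffMeasure (Module.finrank ℝ (E d) : ℝ) : Measure (E d))) •
      (Measure.hausdorffMeasure (Module.finrank ℝ (E d) : ℝ) : Measure (E d)) :=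
    Measure.isAddLeftInvariant_eq_smul _ _
  rw [h2]
  simp only [Measure.smul_apply]
  gcongr

/-- the nearest point and the obtuse angle -/
theorem exists_foot {d : ℕ} {K : Set (E d)} (hK : IsCompact K) (hc : Convex ℝ K)
    (hne : K.Nonempty) (z : E d) :
    ∃ p ∈ K, infDist z K = ‖z - p‖ ∧ ∀ x ∈ K, ⟪z - p, x - p⟫ ≤ 0 := by
  obtain ⟨p, hp, h⟩ := hK.exists_infDist_eq_dist hne z
  refine ⟨p, hp, by rw [h, dist_eq_norm], ?_⟩
  refine (norm_eq_iInf_iff_real_inner_le_zero hc hp).1 ?_
  rw [← dist_eq_norm, ← h, infDist_eq_iInf]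
  simp only [dist_eq_norm]

/-- the obtuse angle characterises the nearest point -/
theorem infDist_of_foot {d : ℕ} {K : Set (E d)} (hc : Convex ℝ K) {z p : E d} (hp : p ∈ K)
    (h : ∀ x ∈ K, ⟪z - p, x - p⟫ ≤ 0) : infDist z K = ‖z - p‖ := by
  rw [(norm_eq_iInf_iff_real_inner_le_zero hc hp).2 h, infDist_eq_iInf]
  simp only [dist_eq_norm]

theorem foot_unique {d : ℕ} {K : Set (E d)} {z p p' : E d} (hp : p ∈ K) (hp' : p' ∈ K)
    (h : ∀ x ∈ K, ⟪z - p, x - p⟫ ≤ 0) (h' : ∀ x ∈ K, ⟪z - p', x - p'⟫ ≤ 0) : p = p' := by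
  have h1 := h p' hp'
  have h2 := h' p hp
  have h3 : ‖p' - p‖ ^ 2 ≤ 0 := by
    have h4 : ⟪p' - p, p' - p⟫ = ⟪z - p, p' - p⟫ + ⟪z - p', p - p'⟫ := by
      rw [show p - p' = -(p' - p) by abel, inner_neg_right, ← sub_eq_add_neg, ← inner_sub_left]
      congr 1
      abel
    rw [← real_inner_self_eq_norm_sq, h4]
    linarith
  have h5 : ‖p' - p‖ = 0 := by
    have := sq_nonneg ‖p' - p‖
    exact pow_eq_zero_iff (two_ne_zero) |>.1 (le_antisymm h3 this)
  exact (sub_eq_zero.1 (norm_eq_zero.1 h5)).symm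

/-- moving towards `K` by `ε` does not increase distances -/
theorem move_le {d : ℕ} {w w' p p' : E d} {N N' ε : ℝ} (hε : 0 < ε) (hN : ε ≤ N) (hN' : ε ≤ N')
    (h1 : ‖w - p‖ = N) (h2 : ‖w' - p'‖ = N') (h3 : ⟪w - p, p' - p⟫ ≤ 0)
    (h4 : ⟪w' - p', p - p'⟫ ≤ 0) :
    ‖(w - (ε / N) • (w - p)) - (w' - (ε / N') • (w' - p'))‖ ≤ ‖w - w'‖ := by
  have hN0 : 0 < N := hε.trans_le hN
  have hN0' : 0 < N' := hε.trans_le hN'
  set u : E d := (1 / N) • (w - p) with hu
  set u' : E d := (1 / N') • (w' - p') with hu'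
  have hun : ‖u‖ = 1 := by
    rw [hu, norm_smul, h1, Real.norm_of_nonneg (by positivity)]
    field_simp
  have hun' : ‖u'‖ = 1 := by
    rw [hu', norm_smul, h2, Real.norm_of_nonneg (by positivity)]
    field_simp
  have hw : w = p + N • u := by
    rw [hu, smul_smul, mul_one_div_cancel hN0.ne', one_smul]
    abel
  have hw' : w' = p' + N' • u' := by
    rw [hu', smul_smul, mul_one_div_cancel hN0'.ne', one_smul]
    abel
  have hF : (w - (ε / N) • (w - p)) - (w' - (ε / N') • (w' - p')) = (w - w') - ε • (u - u') := by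
    have e1 : (ε / N) • (w - p) = ε • u := by
      rw [hu, smul_smul, mul_one_div]
    have e2 : (ε / N') • (w' - p') = ε • u' := by
      rw [hu', smul_smul, mul_one_div]
    rw [e1, e2, smul_sub]
    abel
  have ha : 0 ≤ ⟪p - p', u⟫ := by
    have e : ⟪p - p', u⟫ = -(1 / N * ⟪w - p, p' - p⟫) := by
      rw [hu, real_inner_comm, inner_smul_left, show p - p' = -(p' - p) by abel, inner_neg_right]
      simp
    rw [e]
    have : 0 ≤ 1 / N := by positivity
    nlinarith
  have hb : ⟪p - p', u'⟫ ≤ 0 := by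
    have e : ⟪p - p', u'⟫ = 1 / N' * ⟪w' - p', p - p'⟫ := by
      rw [hu', real_inner_comm, inner_smul_left]
      simp
    rw [e]
    have : 0 ≤ 1 / N' := by positivity
    nlinarith
  clear_value u u'
  have hd : ‖u - u'‖ ^ 2 = 2 - 2 * ⟪u, u'⟫ := by
    rw [norm_sub_sq_real, hun, hun']
    ring
  have hc : ⟪N • u - N' • u', u - u'⟫ = (N + N') / 2 * ‖u - u'‖ ^ 2 := by
    rw [hd, inner_sub_left, inner_sub_right, inner_sub_right, real_inner_smul_left,
      real_inner_smul_left, real_inner_smul_left, real_inner_smul_left,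
      real_inner_self_eq_norm_sq, real_inner_self_eq_norm_sq, hun, hun', real_inner_comm u u']
    ring
  have hip : ε * ‖u - u'‖ ^ 2 ≤ ⟪w - w', u - u'⟫ := by
    have e : w - w' = (p - p') + (N • u - N' • u') := by
      rw [hw, hw']
      abel_nf
    rw [e, inner_add_left, hc, inner_sub_right]
    have h0 := sq_nonneg ‖u - u'‖
    nlinarith
  rw [hF]
  refine (sq_le_sq₀ (norm_nonneg _) (norm_nonneg _)).1 ?_
  rw [norm_sub_sq_real, inner_smul_right, norm_smul, Real.norm_of_nonneg hε.le, mul_pow]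
  nlinarith [sq_nonneg ‖u - u'‖]

theorem mono_layer {d : ℕ} {K : Set (E d)} (hK : IsCompact K) (hc : Convex ℝ K)
    (hne : K.Nonempty) {a ε : ℝ} (hε : 0 < ε) (hεa : ε < a) :
    volume (lay K (a - ε) a) ≤ volume (lay K a (a + ε)) := by
  choose p hp hN hob using exists_foot hK hc hne
  set F : E d → E d := fun w => w - (ε / infDist w K) • (w - p w) with hF
  have hlip : LipschitzOnWith 1 F (lay K a (a + ε)) := by
    refine LipschitzOnWith.of_dist_le_mul fun w hw w' hw' => ?_
    rw [NNReal.coe_one, one_mul, dist_eq_norm, dist_eq_norm]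
    exact move_le hε (hεa.le.trans hw.1) (hεa.le.trans hw'.1) (hN w).symm (hN w').symm
      (hob w _ (hp w')) (hob w' _ (hp w))
  refine le_trans (measure_mono ?_) (volume_image_le hlip)
  intro y hy
  have hy0 : 0 < infDist y K := by
    have := hy.1
    linarith
  set N := infDist y K with hNy
  set w : E d := y + (ε / N) • (y - p y) with hw
  have hwp : w - p y = (1 + ε / N) • (y - p y) := by
    rw [hw, add_smul, one_smul]
    abel
  have hc0 : 0 < 1 + ε / N := by positivity
  have hfoot : ∀ x ∈ K, ⟪w - p y, x - p y⟫ ≤ 0 := by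
    intro x hx
    rw [hwp, real_inner_smul_left]
    have := hob y x hx
    nlinarith
  have hNw : infDist w K = N + ε := by
    rw [infDist_of_foot hc (hp y) hfoot, hwp, norm_smul, Real.norm_of_nonneg hc0.le, ← hN y,
      ← hNy]
    field_simp
  have hpw : p w = p y := foot_unique (hp w) (hp y) (hob w) hfoot
  refine ⟨w, ⟨?_, ?_⟩, ?_⟩
  · rw [hNw]
    have := hy.1
    rw [← hNy] at this
    linarith
  · rw [hNw]
    have := hy.2
    rw [← hNy] at this
    linarith
  · rw [hF]
    simp only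
    rw [hpw, hNw, hwp, smul_smul]
    have e : ε / (N + ε) * (1 + ε / N) = ε / N := by
      field_simp
    rw [e, hw]
    abel

end Pool.Agent.SX
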