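import Pool.Agent.Lib.SX.Mult
import Pool.Agent.Lib.SX.Mono

/-!
# Strong sausage conjecture in large dimensions: the points which are not good
-/

set_option autoImplicit false

open MeasureTheory Metric Set Filter Topology
open scoped Pointwise RealInnerProductSpace ENNReal

namespace Pool.Agent.SX

open Pool.Agent.Saus

namespace Half

theorem measurable_lay {d : ℕ} (K : Set (E d)) (a b : ℝ) : MeasurableSet (lay K a b) := by
  have h1 : MeasurableSet {z : E d | a ≤ infDist z K} :=
    (isClosed_le continuous_const (continuous_infDist_pt K)).measurableSet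
  have h2 : MeasurableSet {z : E d | infDist z K < b} :=
    (isOpen_lt (continuous_infDist_pt K) continuous_const).measurableSet
  exact h1.inter h2

theorem measurable_clay {d : ℕ} (K : Set (E d)) (a b : ℝ) : MeasurableSet (clay K a b) := by
  have h1 : MeasurableSet {z : E d | a ≤ infDist z K} :=
    (isClosed_le continuous_const (continuous_infDist_pt K)).measurableSet
  have h2 : MeasurableSet {z : E d | infDist z K ≤ b} :=
    (isClosed_le (continuous_infDist_pt K) continuous_const).measurableSet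
  exact h1.inter h2

theorem volume_le_top {d : ℕ} {K : Set (E d)} (hK : IsCompact K) (hne : K.Nonempty) (b : ℝ) :
    volume {z | infDist z K ≤ b} < ⊤ := by
  refine lt_of_le_of_lt (measure_mono ?_) (hK.cthickening (r := b)).measure_lt_top
  intro z hz
  rw [mem_cthickening_iff]
  have h1 : infEDist z K ≠ ⊤ := infEDist_ne_top hne
  rw [← ENNReal.ofReal_toReal h1]
  exact ENNReal.ofReal_le_ofReal hz

theorem volume_clay_lt_top {d : ℕ} {K : Set (E d)} (hK : IsCompact K) (hne : K.Nonempty)
    (a b : ℝ) : volume (clay K a b) < ⊤ :=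
  lt_of_le_of_lt (measure_mono fun _ hz => hz.2) (volume_le_top hK hne b)

theorem volume_lay_lt_top {d : ℕ} {K : Set (E d)} (hK : IsCompact K) (hne : K.Nonempty)
    (a b : ℝ) : volume (lay K a b) < ⊤ :=
  lt_of_le_of_lt (measure_mono fun _ hz => hz.2.le) (volume_le_top hK hne b)

/-- The volumes of three consecutive layers of the same width increase. -/
theorem half {d : ℕ} {K : Set (E d)} (hK : IsCompact K) (hc : Convex ℝ K)
    (hne : K.Nonempty) {a ε : ℝ} (hε : 0 < ε) (hεa : ε < a) :
    2 * volume (lay K (a - ε) a) ≤ volume (clay K a (a + 2 * ε)) := by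
  have h1 : volume (lay K (a - ε) a) ≤ volume (lay K a (a + ε)) := mono_layer hK hc hne hε hεa
  have h2 : volume (lay K a (a + ε)) ≤ volume (lay K (a + ε) (a + ε + ε)) := by
    have := mono_layer hK hc hne (a := a + ε) hε (by linarith)
    rwa [add_sub_cancel_right] at this
  have hdis : Disjoint (lay K a (a + ε)) (lay K (a + ε) (a + ε + ε)) := by
    rw [Set.disjoint_left]
    intro z hz hz'
    exact absurd hz'.1 (not_le.2 hz.2)
  have hsub : lay K a (a + ε) ∪ lay K (a + ε) (a + ε + ε) ⊆ clay K a (a + 2 * ε) := by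
    rintro z (hz | hz)
    · exact ⟨hz.1, by linarith [hz.2]⟩
    · exact ⟨by linarith [hz.1], by linarith [hz.2]⟩
  calc 2 * volume (lay K (a - ε) a) = volume (lay K (a - ε) a) + volume (lay K (a - ε) a) :=
        two_mul _
    _ ≤ volume (lay K a (a + ε)) + volume (lay K (a + ε) (a + ε + ε)) :=
        add_le_add h1 (h1.trans h2)
    _ = volume (lay K a (a + ε) ∪ lay K (a + ε) (a + ε + ε)) :=
        (measure_union hdis (measurable_lay _ _ _)).symm
    _ ≤ _ := measure_mono hsub

/-- The same with real numbers. -/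
theorem half_real {d : ℕ} {K : Set (E d)} (hK : IsCompact K) (hc : Convex ℝ K)
    (hne : K.Nonempty) {a ε : ℝ} (hε : 0 < ε) (hεa : ε < a) :
    2 * (volume (lay K (a - ε) a)).toReal ≤ (volume (clay K a (a + 2 * ε))).toReal := by
  have h := ENNReal.toReal_mono (volume_clay_lt_top hK hne a (a + 2 * ε)).ne
    (half hK hc hne hε hεa)
  rwa [ENNReal.toReal_mul, ENNReal.toReal_ofNat] at h

end Half

open Half

theorem rest_sum {d : ℕ} (X : Finset (E d)) (hX : IsPack X) (hne : X.Nonempty) {r w : ℝ}
    (hr1 : 1.51 ≤ r) (hr2 : r ≤ 2) (hw : 0 ≤ w) (J : Finset (E d)) (hJ : J ⊆ X)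
    (S : E d → Set (E d)) (hS : ∀ x ∈ J, MeasurableSet (S x))
    (hS1 : ∀ x ∈ J, S x ⊆ clay (convexHull ℝ (X : Set (E d))) (r - 3 / 100) r)
    (hS2 : ∀ x ∈ J, ∀ z ∈ S x,
      dist z x ^ 2 - infDist z (convexHull ℝ (X : Set (E d))) ^ 2 ≤ 2 - 1 / 10)
    (hS3 : ∀ x ∈ J, ENNReal.ofReal w ≤ volume (S x)) :
    (J.card : ℝ) * w ≤
      30 * (volume (clay (convexHull ℝ (X : Set (E d))) (r - 2 / 100) r)).toReal := by
  set K : Set (E d) := convexHull ℝ (X : Set (E d)) with hKd
  have hK : IsCompact K := X.finite_toSet.isCompact_convexHull ℝ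
  have hc : Convex ℝ K := convex_convexHull ℝ _
  have hneK : K.Nonempty := (Finset.coe_nonempty.2 hne).convexHull
  have h1 := sum_vol_le X hX hne J hJ S (clay K (r - 3 / 100) r) hS (measurable_clay _ _ _) hS1
    (by norm_num : (0 : ℝ) < 1 / 10) hS2
  have h2 : (J.card : ℝ≥0∞) * ENNReal.ofReal w ≤ ∑ x ∈ J, volume (S x) := by
    rw [← nsmul_eq_mul]
    exact Finset.card_nsmul_le_sum _ _ _ hS3
  have hfin := volume_clay_lt_top hK hneK (r - 3 / 100) r
  have h3 : (J.card : ℝ) * w ≤ 20 * (volume (clay K (r - 3 / 100) r)).toReal := by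
    have h := ENNReal.toReal_mono (ENNReal.mul_ne_top ENNReal.ofReal_ne_top hfin.ne) (h2.trans h1)
    rw [ENNReal.toReal_mul, ENNReal.toReal_mul, ENNReal.toReal_natCast,
      ENNReal.toReal_ofReal hw, ENNReal.toReal_ofReal (by norm_num)] at h
    norm_num at h
    exact h
  have h4 : (volume (clay K (r - 3 / 100) r)).toReal ≤
      (volume (lay K (r - 3 / 100) (r - 2 / 100))).toReal +
      (volume (clay K (r - 2 / 100) r)).toReal := by
    rw [← ENNReal.toReal_add (volume_lay_lt_top hK hneK _ _).ne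
      (volume_clay_lt_top hK hneK _ _).ne]
    refine ENNReal.toReal_mono (ENNReal.add_ne_top.2 ⟨(volume_lay_lt_top hK hneK _ _).ne,
      (volume_clay_lt_top hK hneK _ _).ne⟩) ((measure_mono ?_).trans (measure_union_le _ _))
    intro z hz
    rcases lt_or_ge (infDist z K) (r - 2 / 100) with h | h
    · exact Or.inl ⟨hz.1, h⟩
    · exact Or.inr ⟨h, hz.2⟩
  have h5 := half_real hK hc hneK (a := r - 2 / 100) (ε := 1 / 100) (by norm_num) (by linarith)
  have e1 : r - 2 / 100 - 1 / 100 = r - 3 / 100 := by ring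
  have e2 : r - 2 / 100 + 2 * (1 / 100) = r := by ring
  rw [e1, e2] at h5
  linarith

end Pool.Agent.SX
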