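import Pool.Agent.Lib.MP_dcaa2d_sau.D4
import Pool.Agent.Lib.SX.Layer
import Pool.Agent.Lib.SX.Cont
import Pool.Agent.Lib.SX.Rest

/-!
# Strong sausage conjecture in large dimensions: the good points
-/

set_option autoImplicit false

open MeasureTheory Metric Set Filter Topology
open scoped Pointwise RealInnerProductSpace ENNReal

namespace Pool.Agent.SX

open Pool.Agent.Saus

namespace Good

theorem kappa_pos (d : ℕ) : 0 < kappa d :=
  ENNReal.toReal_pos (measure_closedBall_pos volume _ one_pos).ne' measure_closedBall_lt_top.ne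

/-- A good point: its far part is small compared with the part in the layer. -/
theorem forty {d : ℕ} (hd : 1 ≤ d) (K : Set (E d)) (hK : K.Nonempty) (x : E d) {r a : ℝ}
    (hr1 : 1.51 ≤ r) (hr2 : r ≤ 2) (hbig : 41 ≤ (1 + eta0 / 800) ^ d)
    (hfar : volume (far K x 2 a) ≤ ENNReal.ofReal (kappa d * (r - eta0) ^ d)) :
    40 * volume (far K x 2 a) ≤ volume (closedBall x 2 ∩ lay K (a - 1 / 100) a) := by
  have hk := kappa_pos d
  have he : eta0 = 1 / 640000000 := rfl
  have he0 : 0 < eta0 := by rw [he]; norm_num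
  have he1 : eta0 < 1 := by rw [he]; norm_num
  have hd0 : d ≠ 0 := by omega
  obtain ⟨ζ, hζ0, hζ2, hv⟩ := far_vol hd K x (by norm_num : (0 : ℝ) ≤ 2) a
  rcases hζ0.eq_or_lt with h0 | hpos
  · rw [hv, ← h0, zero_pow hd0, mul_zero, ENNReal.ofReal_zero, mul_zero]
    exact bot_le
  · have hle : ζ ≤ r - eta0 := by
      rw [hv] at hfar
      have hnn : 0 ≤ kappa d * (r - eta0) ^ d := by
        have : 0 ≤ r - eta0 := by linarith
        positivity
      have h1 := (ENNReal.ofReal_le_ofReal_iff hnn).1 hfar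
      have h2 : ζ ^ d ≤ (r - eta0) ^ d := le_of_mul_le_mul_left h1 hk
      exact (pow_le_pow_iff_left₀ hpos.le (by linarith) hd0).1 h2
    have h3 := layer_bm hd K hK x (t := 2) (ε := 1 / 100) (a := a) (ζ := ζ) (by norm_num)
      (by norm_num) (by norm_num) hpos hζ2 hv
    refine le_trans ?_ h3
    rw [hv]
    have h40 : (40 : ℝ≥0∞) = ENNReal.ofReal 40 := by
      rw [ENNReal.ofReal_ofNat]
    rw [h40, ← ENNReal.ofReal_mul (by norm_num)]
    apply ENNReal.ofReal_le_ofReal
    have h4 : ζ * (1 + eta0 / 800) ≤ ζ + 1 / 100 / (2 * 2) * (2 - ζ) := by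
      have : ζ * eta0 ≤ 2 * eta0 := mul_le_mul_of_nonneg_right hζ2 he0.le
      nlinarith
    have h5 : (ζ * (1 + eta0 / 800)) ^ d ≤ (ζ + 1 / 100 / (2 * 2) * (2 - ζ)) ^ d :=
      pow_le_pow_left₀ (by positivity) h4 d
    rw [mul_pow] at h5
    have h6 : ζ ^ d * 41 ≤ ζ ^ d * (1 + eta0 / 800) ^ d :=
      mul_le_mul_of_nonneg_left hbig (by positivity)
    have h7 : 41 * ζ ^ d ≤ (ζ + 1 / 100 / (2 * 2) * (2 - ζ)) ^ d := by linarith
    have h8 : kappa d * (40 * ζ ^ d) ≤
        kappa d * ((ζ + 1 / 100 / (2 * 2) * (2 - ζ)) ^ d - ζ ^ d) :=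
      mul_le_mul_of_nonneg_left (by linarith) hk.le
    linarith

end Good

open Half Good

theorem good_sum {d : ℕ} (hd : 1 ≤ d) (X : Finset (E d)) (hX : IsPack X) (hne : X.Nonempty)
    {r c : ℝ} (hr1 : 1.51 ≤ r) (hr2 : r ≤ 2) (hc0 : 0 < c) (hc : c * Sausage.cubeDens d ≤ 1)
    (hbig : 41 ≤ (1 + eta0 / 800) ^ d) (G : Finset (E d)) (hG : G ⊆ X)
    (hfar : ∀ x ∈ G, volume (far (convexHull ℝ (X : Set (E d))) x 2 (r - 2 / 100)) ≤
      ENNReal.ofReal (kappa d * (r - eta0) ^ d)) :
    (G.card : ℝ) * c ≤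
      (volume {z | infDist z (convexHull ℝ (X : Set (E d))) < r - 2 / 100}).toReal +
      1 / 4 * (volume (clay (convexHull ℝ (X : Set (E d))) (r - 2 / 100) r)).toReal := by
  set K : Set (E d) := convexHull ℝ (X : Set (E d)) with hKd
  have hK : IsCompact K := X.finite_toSet.isCompact_convexHull ℝ
  have hc' : Convex ℝ K := convex_convexHull ℝ _
  have hneK : K.Nonempty := (Finset.coe_nonempty.2 hne).convexHull
  have hfarfin : ∀ x, volume (far K x 2 (r - 2 / 100)) ≠ ⊤ := fun x =>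
    (lt_of_le_of_lt (measure_mono fun _ hz => hz.1)
      (measure_closedBall_lt_top (x := x) (r := 2))).ne
  -- replacement
  have hpack : Sausage.IsPacking (G : Set (Sausage.E d)) := fun x hx y hy hxy =>
    hX x (hG hx) y (hG hy) hxy
  have h1 : (G.card : ℝ) ≤ Sausage.cubeDens d *
      (volume (⋃ x ∈ G, closedBall (x : E d) 2)).toReal := Sausage.replacement hd hpack
  have h2 : (G.card : ℝ) * c ≤ (volume (⋃ x ∈ G, closedBall (x : E d) 2)).toReal := by
    set v : ℝ := (volume (⋃ x ∈ G, closedBall (x : E d) 2)).toReal with hv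
    have hv0 : 0 ≤ v := ENNReal.toReal_nonneg
    calc (G.card : ℝ) * c ≤ (Sausage.cubeDens d * v) * c :=
          mul_le_mul_of_nonneg_right h1 hc0.le
      _ = (c * Sausage.cubeDens d) * v := by ring
      _ ≤ 1 * v := mul_le_mul_of_nonneg_right hc hv0
      _ = v := one_mul v
  -- the two parts of the balls
  have hlow : volume {z : E d | infDist z K < r - 2 / 100} ≠ ⊤ :=
    (lt_of_le_of_lt (measure_mono fun z (hz : infDist z K < r - 2 / 100) => hz.le)
      (volume_le_top hK hneK (r - 2 / 100))).ne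
  have hsumfin : ∑ x ∈ G, volume (far K x 2 (r - 2 / 100)) ≠ ⊤ :=
    ENNReal.sum_ne_top.2 fun x _ => hfarfin x
  have h3 : (volume (⋃ x ∈ G, closedBall (x : E d) 2)).toReal ≤
      (volume {z | infDist z K < r - 2 / 100}).toReal +
      (∑ x ∈ G, volume (far K x 2 (r - 2 / 100))).toReal := by
    rw [← ENNReal.toReal_add hlow hsumfin]
    refine ENNReal.toReal_mono (ENNReal.add_ne_top.2 ⟨hlow, hsumfin⟩) ?_
    have hsub : (⋃ x ∈ G, closedBall (x : E d) 2) ⊆
        {z | infDist z K < r - 2 / 100} ∪ ⋃ x ∈ G, far K x 2 (r - 2 / 100) := by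
      intro z hz
      rw [mem_iUnion₂] at hz
      obtain ⟨x, hx, hzx⟩ := hz
      rcases lt_or_ge (infDist z K) (r - 2 / 100) with h | h
      · exact Or.inl h
      · exact Or.inr (mem_iUnion₂.2 ⟨x, hx, hzx, h⟩)
    exact (measure_mono hsub).trans ((measure_union_le _ _).trans
      (add_le_add le_rfl (measure_biUnion_finset_le _ _)))
  -- the far parts are small
  have h4 : 40 * ∑ x ∈ G, volume (far K x 2 (r - 2 / 100)) ≤
      ∑ x ∈ G, volume (closedBall x 2 ∩ lay K (r - 2 / 100 - 1 / 100) (r - 2 / 100)) := by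
    rw [Finset.mul_sum]
    exact Finset.sum_le_sum fun x hx => forty hd K hneK x hr1 hr2 hbig (hfar x hx)
  have h5 := sum_vol_le X hX hne G hG
    (fun x => closedBall x 2 ∩ lay K (r - 2 / 100 - 1 / 100) (r - 2 / 100))
    (lay K (r - 2 / 100 - 1 / 100) (r - 2 / 100))
    (fun x _ => measurableSet_closedBall.inter (measurable_lay _ _ _)) (measurable_lay _ _ _)
    (fun x _ => inter_subset_right) (by norm_num : (0 : ℝ) < 1 / 10)
    (fun x _ z hz => by
      have hz1 : dist z x ≤ 2 := hz.1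
      have hz2 : r - 2 / 100 - 1 / 100 ≤ infDist z K := hz.2.1
      have hz3 : 1.48 ≤ infDist z K := by linarith
      have hz4 : 0 ≤ dist z x := dist_nonneg
      show dist z x ^ 2 - infDist z K ^ 2 ≤ 2 - 1 / 10
      nlinarith)
  have hlayfin := (volume_lay_lt_top hK hneK (r - 2 / 100 - 1 / 100) (r - 2 / 100)).ne
  have h6 : 40 * (∑ x ∈ G, volume (far K x 2 (r - 2 / 100))).toReal ≤
      20 * (volume (lay K (r - 2 / 100 - 1 / 100) (r - 2 / 100))).toReal := by
    have h := ENNReal.toReal_mono (ENNReal.mul_ne_top ENNReal.ofReal_ne_top hlayfin)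
      (h4.trans h5)
    rw [ENNReal.toReal_mul, ENNReal.toReal_mul, ENNReal.toReal_ofNat,
      ENNReal.toReal_ofReal (by norm_num)] at h
    norm_num at h ⊢
    exact h
  have h7 := half_real hK hc' hneK (a := r - 2 / 100) (ε := 1 / 100) (by norm_num) (by linarith)
  have e2 : r - 2 / 100 + 2 * (1 / 100) = r := by ring
  rw [e2] at h7
  linarith

end Pool.Agent.SX
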