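import Pool.Agent.Lib.SX.Defs
import Pool.Agent.Lib.MP_dcaa2d_sau.D4
import Pool.Agent.Lib.Saus.Kappa

/-!
# The main inequality for all large dimensions

The asymptotic hypotheses of `main_fixed` hold for all large `d`.
-/

set_option autoImplicit false

open MeasureTheory Metric Set Filter Topology
open scoped Pointwise RealInnerProductSpace ENNReal

namespace Pool.Agent.SX

open Pool.Agent.Saus

theorem eta0_pos : 0 < eta0 := by
  rw [eta0]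
  norm_num

/-- an exponential beats a linear function -/
theorem lin_le_pow {q : ℝ} (hq : 1 < q) (c : ℝ) :
    ∀ᶠ m : ℕ in atTop, c * ((m : ℝ) + 3) ≤ q ^ (m + 2) - 1 := by
  have h1 : Tendsto (fun n : ℕ => (n : ℝ) ^ 1 / q ^ n) atTop (𝓝 0) :=
    tendsto_pow_const_div_const_pow_of_one_lt 1 hq
  have h2 : Tendsto (fun n : ℕ => (q ^ n)⁻¹) atTop (𝓝 0) :=
    tendsto_inv_atTop_zero.comp (tendsto_pow_atTop_atTop_of_one_lt hq)
  have h3 : Tendsto (fun n : ℕ => c * ((n : ℝ) ^ 1 / q ^ n) + (c + 1) * (q ^ n)⁻¹) atTop (𝓝 0) := by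
    have := (h1.const_mul c).add (h2.const_mul (c + 1))
    simpa using this
  have h4 : ∀ᶠ n : ℕ in atTop, c * ((n : ℝ) ^ 1 / q ^ n) + (c + 1) * (q ^ n)⁻¹ < 1 :=
    h3.eventually (gt_mem_nhds one_pos)
  have h5 := (tendsto_add_atTop_nat 2).eventually h4
  filter_upwards [h5] with m hm
  have hp : 0 < q ^ (m + 2) := by positivity
  have h6 : c * (((m + 2 : ℕ) : ℝ) ^ 1 / q ^ (m + 2)) + (c + 1) * (q ^ (m + 2))⁻¹ =
      (c * ((m : ℝ) + 3) + 1) / q ^ (m + 2) := by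
    push_cast
    field_simp
    ring
  rw [h6, div_lt_one hp] at hm
  linarith

/-- `main_ineq` from `kappa_ratio_le` and `main_fixed` -/
theorem main_ineq_of
    (hKR : ∀ᶠ m : ℕ in atTop, kappa m ≤ ((m : ℝ) + 2) * kappa (m + 1))
    (hMF : ∀ (m : ℕ) (r : ℝ), 1.51 ≤ r → r ≤ 2 →
      Dst (m + 2) r * Sausage.cubeDens (m + 2) ≤ 1 → kappa (m + 2) ≤ kappa (m + 1) →
      10 ^ 10 ≤ kappa m / kappa (m + 1) → (r - 2 / 100) ^ (m + 1) ≤ r ^ (m + 1) / 2 →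
      120 * Dst (m + 2) r ≤ kappa (m + 2) * ((r + eta0) ^ (m + 2) - r ^ (m + 2)) →
      41 ≤ (1 + eta0 / 800) ^ (m + 2) → ∀ X : Finset (E (m + 2)), X.Nonempty → IsPack X →
      ((X.card : ℝ) - 4) * Dst (m + 2) r ≤ V X r) :
    ∃ d₀ : ℕ, 2 ≤ d₀ ∧ ∀ d ≥ d₀, ∀ r : ℝ, 1.51 ≤ r → r ≤ 2 →
    Dst d r * Sausage.cubeDens d ≤ 1 → ∀ X : Finset (E d), X.Nonempty → IsPack X →
      ((X.card : ℝ) - 4) * Dst d r ≤ V X r := by
  have he := eta0_pos
  have e1 : ∀ᶠ m : ℕ in atTop, (10 : ℝ) ^ 10 ≤ kappa m / kappa (m + 1) :=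
    tendsto_kappa_ratio.eventually_ge_atTop _
  have e2 : ∀ᶠ m : ℕ in atTop, (10 : ℝ) ^ 10 ≤ kappa (m + 1) / kappa (m + 1 + 1) :=
    (tendsto_add_atTop_nat 1).eventually e1
  have e3 : ∀ᶠ m : ℕ in atTop, (0.99 : ℝ) ^ (m + 1) ≤ 1 / 2 := by
    have h := (tendsto_pow_atTop_nhds_zero_of_lt_one (by norm_num : (0 : ℝ) ≤ 0.99)
      (by norm_num)).eventually (gt_mem_nhds (by norm_num : (0 : ℝ) < 1 / 2))
    exact ((tendsto_add_atTop_nat 1).eventually h).mono fun _ h => h.le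
  have e4 : ∀ᶠ m : ℕ in atTop, 240 * ((m : ℝ) + 3) ≤ (1 + eta0 / 2) ^ (m + 2) - 1 :=
    lin_le_pow (by linarith) 240
  have e5 : ∀ᶠ m : ℕ in atTop, (41 : ℝ) ≤ (1 + eta0 / 800) ^ (m + 2) :=
    (tendsto_add_atTop_nat 2).eventually
      ((tendsto_pow_atTop_atTop_of_one_lt (by linarith : (1 : ℝ) < 1 + eta0 / 800)).eventually_ge_atTop
        41)
  have e6 : ∀ᶠ m : ℕ in atTop, kappa (m + 1) ≤ (((m + 1 : ℕ) : ℝ) + 2) * kappa (m + 1 + 1) :=
    (tendsto_add_atTop_nat 1).eventually hKR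
  obtain ⟨m₀, hm₀⟩ := eventually_atTop.1 (e1.and (e2.and (e3.and (e4.and (e5.and e6)))))
  refine ⟨m₀ + 2, by omega, fun d hd r hr1 hr2 hdens X hXne hX => ?_⟩
  obtain ⟨m, rfl⟩ : ∃ m, d = m + 2 := ⟨d - 2, by omega⟩
  obtain ⟨h1, h2, h3, h4, h5, h6⟩ := hm₀ m (by omega)
  have k0 := kappa_pos m
  have k1 := kappa_pos (m + 1)
  have k2 := kappa_pos (m + 2)
  have hr0 : 0 < r := by linarith
  refine hMF m r hr1 hr2 hdens ?_ h1 ?_ ?_ h5 X hXne hX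
  · rw [le_div_iff₀ k2] at h2
    nlinarith
  · have h7 : r - 2 / 100 ≤ 0.99 * r := by linarith
    calc (r - 2 / 100) ^ (m + 1) ≤ (0.99 * r) ^ (m + 1) :=
          pow_le_pow_left₀ (by linarith) h7 _
      _ = 0.99 ^ (m + 1) * r ^ (m + 1) := mul_pow _ _ _
      _ ≤ 1 / 2 * r ^ (m + 1) := mul_le_mul_of_nonneg_right h3 (by positivity)
      _ = r ^ (m + 1) / 2 := by ring
  · have h8 : Dst (m + 2) r = 2 * kappa (m + 1) * r ^ (m + 1) := rfl
    have h9 : (1 + eta0 / 2) * r ≤ r + eta0 := by nlinarith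
    have h10 : (1 + eta0 / 2) ^ (m + 2) * r ^ (m + 2) ≤ (r + eta0) ^ (m + 2) := by
      rw [← mul_pow]
      exact pow_le_pow_left₀ (by positivity) h9 _
    have h11 : 240 * ((m : ℝ) + 3) * (r ^ (m + 1)) ≤ (r + eta0) ^ (m + 2) - r ^ (m + 2) := by
      have h12 : 240 * ((m : ℝ) + 3) * r ^ (m + 1) ≤ 240 * ((m : ℝ) + 3) * r ^ (m + 2) := by
        have : r ^ (m + 1) ≤ r ^ (m + 2) := pow_le_pow_right₀ (by linarith) (by omega)
        exact mul_le_mul_of_nonneg_left this (by positivity)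
      have h13 := mul_le_mul_of_nonneg_right h4 (by positivity : 0 ≤ r ^ (m + 2))
      linarith
    push_cast at h6
    rw [h8]
    calc 120 * (2 * kappa (m + 1) * r ^ (m + 1)) = 240 * r ^ (m + 1) * kappa (m + 1) := by ring
      _ ≤ 240 * r ^ (m + 1) * (((m : ℝ) + 1 + 2) * kappa (m + 2)) :=
          mul_le_mul_of_nonneg_left h6 (by positivity)
      _ = kappa (m + 2) * (240 * ((m : ℝ) + 3) * r ^ (m + 1)) := by ring
      _ ≤ _ := mul_le_mul_of_nonneg_left h11 k2.le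

end Pool.Agent.SX
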