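import Pool.Agent.Lib.Saus.Rankin

/-!
# Sets near many points: the sum of the volumes (row R4, helper60)
-/

set_option autoImplicit false

open MeasureTheory Metric Set Filter Topology
open scoped Pointwise RealInnerProductSpace ENNReal

namespace Pool.Agent.SX

open Pool.Agent.Saus

/-- If every point lies in at most `M` of the sets `A x ⊆ W`, then their volumes sum to at most
`M * volume W`. -/
private theorem sum_volume_le {d : ℕ} {α : Type*} (I : Finset α) (A : α → Set (E d))
    (W : Set (E d)) (hA : ∀ x ∈ I, MeasurableSet (A x)) (hW : MeasurableSet W)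
    (hsub : ∀ x ∈ I, A x ⊆ W) {M : ℝ}
    (hM : ∀ y, ∀ J ⊆ I, (∀ x ∈ J, y ∈ A x) → (J.card : ℝ) ≤ M) :
    ∑ x ∈ I, volume (A x) ≤ ENNReal.ofReal M * volume W := by
  classical
  have h1 : ∑ x ∈ I, volume (A x)
      = ∫⁻ y, ∑ x ∈ I, (A x).indicator (fun _ => (1 : ENNReal)) y := by
    rw [lintegral_finsetSum']
    · refine Finset.sum_congr rfl (fun x hx => ?_)
      rw [lintegral_indicator (hA x hx)]
      simp
    · intro x hx
      exact (measurable_const.indicator (hA x hx)).aemeasurable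
  have h2 : ENNReal.ofReal M * volume W = ∫⁻ y, W.indicator (fun _ => ENNReal.ofReal M) y := by
    rw [lintegral_indicator hW]
    simp
  rw [h1, h2]
  refine lintegral_mono (fun y => ?_)
  by_cases hy : y ∈ W
  · rw [Set.indicator_of_mem hy]
    have h3 : ∑ x ∈ I, (A x).indicator (fun _ => (1 : ENNReal)) y
        = ((I.filter (fun x => y ∈ A x)).card : ENNReal) := by
      rw [Finset.card_filter]
      push_cast
      refine Finset.sum_congr rfl (fun x _ => ?_)
      by_cases h : y ∈ A x <;> simp [h]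
    rw [h3]
    have h4 := hM y (I.filter (fun x => y ∈ A x)) (Finset.filter_subset _ _)
      (fun x hx => (Finset.mem_filter.1 hx).2)
    calc ((I.filter (fun x => y ∈ A x)).card : ENNReal)
        = ENNReal.ofReal ((I.filter (fun x => y ∈ A x)).card : ℝ) := by simp
      _ ≤ ENNReal.ofReal M := ENNReal.ofReal_le_ofReal h4
  · rw [Set.indicator_of_notMem hy]
    refine le_of_eq (Finset.sum_eq_zero (fun x hx => ?_))
    exact Set.indicator_of_notMem (fun h => hy (hsub x hx h)) _

theorem sum_vol_le {d : ℕ} (X : Finset (E d)) (hX : IsPack X) (hne : X.Nonempty)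
    (I : Finset (E d)) (hI : I ⊆ X) (S : E d → Set (E d)) (W : Set (E d))
    (hS : ∀ x ∈ I, MeasurableSet (S x)) (hW : MeasurableSet W) (hSW : ∀ x ∈ I, S x ⊆ W)
    {σ : ℝ} (hσ : 0 < σ)
    (hdist : ∀ x ∈ I, ∀ z ∈ S x,
      dist z x ^ 2 - infDist z (convexHull ℝ (X : Set (E d))) ^ 2 ≤ 2 - σ) :
    ∑ x ∈ I, volume (S x) ≤ ENNReal.ofReal (2 / σ) * volume W := by
  classical
  set K : Set (E d) := convexHull ℝ (X : Set (E d)) with hK
  have hKc : IsCompact K := X.finite_toSet.isCompact_convexHull (𝕜 := ℝ)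
  have hKconv : Convex ℝ K := convex_convexHull ℝ _
  have hKne : K.Nonempty := by
    obtain ⟨x, hx⟩ := hne
    exact ⟨x, subset_convexHull ℝ _ hx⟩
  refine sum_volume_le I S W hS hW hSW (fun y J hJ hy => ?_)
  obtain ⟨p, hpK, hp⟩ := exists_norm_eq_iInf_of_complete_convex hKne hKc.isComplete hKconv y
  have hin := (norm_eq_iInf_iff_real_inner_le_zero hKconv hpK).1 hp
  have hyp : infDist y K ≤ ‖y - p‖ := by
    rw [← dist_eq_norm]
    exact infDist_le_dist_of_mem hpK
  refine rankin J (fun x hx y hy hxy => hX x (hI (hJ hx)) y (hI (hJ hy)) hxy) p hσ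
    (fun x hx => ?_)
  have hxK : x ∈ K := subset_convexHull ℝ _ (hI (hJ hx))
  have h1 := hdist x (hJ hx) y (hy x hx)
  have h2 := hin x hxK
  have h3 : ‖y - x‖ ^ 2 = ‖y - p‖ ^ 2 - 2 * ⟪y - p, x - p⟫ + ‖x - p‖ ^ 2 := by
    rw [← norm_sub_sq_real]
    congr 2
    abel
  have h5 : infDist y K ^ 2 ≤ ‖y - p‖ ^ 2 := pow_le_pow_left₀ infDist_nonneg hyp 2
  rw [dist_eq_norm] at h1 ⊢
  linarith

end Pool.Agent.SX
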