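import Pool.Agent.Lib.SX.FinE
import Pool.Agent.Lib.SX.Dens

/-!
# The lower bound for the critical radius from an upper bound for the packing density
-/

set_option autoImplicit false

open MeasureTheory Metric Set Filter Topology
open scoped Pointwise RealInnerProductSpace ENNReal

namespace Pool.Agent.SX

open Pool.Agent.Saus

/-- The volume per ball of a long sausage of radius `s` is at most `κ_d / δ(B^d)` for all large
`d`, for every `s < sqrt (2 π / e)`. -/
theorem rho_bound_of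
    (hMD : ∀ κ : ℝ, κ < Real.logb 2 (2 * Real.pi / Real.exp 1) / 2 →
      ∀ᶠ d : ℕ in atTop, Sausage.maxDensity d ≤ (2 : ℝ) ^ (-(κ * d)))
    {s : ℝ} (hs0 : 0 < s) (hs : s < Real.sqrt (2 * Real.pi / Real.exp 1)) :
    ∀ᶠ d : ℕ in atTop, 2 * kappa (d - 1) * s ^ (d - 1) ≤ kappa d / Sausage.maxDensity d := by
  have hx : 0 < 2 * Real.pi / Real.exp 1 := by positivity
  have hs2 : Real.logb 2 s < Real.logb 2 (2 * Real.pi / Real.exp 1) / 2 := by
    have h1 : Real.logb 2 s < Real.logb 2 (Real.sqrt (2 * Real.pi / Real.exp 1)) :=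
      Real.logb_lt_logb (by norm_num) hs0 hs
    have h2 : Real.logb 2 (Real.sqrt (2 * Real.pi / Real.exp 1)) =
        Real.logb 2 (2 * Real.pi / Real.exp 1) / 2 := by
      rw [Real.sqrt_eq_rpow, Real.logb_rpow_eq_mul_logb_of_pos hx]
      ring
    rwa [h2] at h1
  obtain ⟨κ, hκ1, hκ2⟩ := exists_between hs2
  set t : ℝ := (2 : ℝ) ^ κ with ht
  have ht0 : 0 < t := by positivity
  have hst : s < t := by
    have h1 : s = (2 : ℝ) ^ Real.logb 2 s := (Real.rpow_logb (by norm_num) (by norm_num) hs0).symm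
    rw [h1]
    exact Real.rpow_lt_rpow_of_exponent_lt (by norm_num) hκ1
  have hq : 1 < t / s := (one_lt_div hs0).2 hst
  obtain ⟨m₀, hm₀⟩ := eventually_atTop.1 (((tendsto_add_atTop_nat 1).eventually kappa_ratio_le).and
    ((lin_le_pow hq (2 / s)).and ((tendsto_add_atTop_nat 2).eventually (hMD κ hκ2))))
  filter_upwards [eventually_ge_atTop (m₀ + 2)] with d hd
  obtain ⟨m, rfl⟩ : ∃ m, d = m + 2 := ⟨d - 2, by omega⟩
  obtain ⟨h1, h2, h3⟩ := hm₀ m (by omega)
  have k1 := kappa_pos (m + 1)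
  have k2 := kappa_pos (m + 2)
  have hm1 : m + 2 - 1 = m + 1 := by omega
  have hL : kappa (m + 2) / Sausage.maxDensity (m + 2) = 1 / Sausage.cubeDens (m + 2) :=
    Sausage.kappa_div_maxDensity (by omega)
  have hD : 0 < Sausage.cubeDens (m + 2) := Sausage.cubeDens_pos (by omega)
  have hM : 0 < Sausage.maxDensity (m + 2) := by
    by_contra hcon
    push Not at hcon
    have h4 : kappa (m + 2) / Sausage.maxDensity (m + 2) ≤ 0 :=
      div_nonpos_of_nonneg_of_nonpos k2.le hcon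
    rw [hL] at h4
    exact absurd h4 (not_le.2 (by positivity))
  rw [hm1, le_div_iff₀ hM]
  have h5 : (2 : ℝ) ^ (-(κ * ((m + 2 : ℕ) : ℝ))) = (t ^ (m + 2))⁻¹ := by
    rw [Real.rpow_neg (by norm_num), Real.rpow_mul (by norm_num), Real.rpow_natCast]
  rw [h5] at h3
  have h6 : 2 * ((m : ℝ) + 3) * s ^ (m + 1) ≤ t ^ (m + 2) := by
    have h7 : 2 / s * ((m : ℝ) + 3) ≤ (t / s) ^ (m + 2) := by linarith
    have h8 := mul_le_mul_of_nonneg_right h7 (by positivity : 0 ≤ s ^ (m + 2))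
    rw [div_pow, div_mul_cancel₀ _ (by positivity)] at h8
    calc 2 * ((m : ℝ) + 3) * s ^ (m + 1) = 2 / s * ((m : ℝ) + 3) * s ^ (m + 2) := by
          field_simp
          ring
      _ ≤ t ^ (m + 2) := h8
  push_cast at h1
  calc 2 * kappa (m + 1) * s ^ (m + 1) * Sausage.maxDensity (m + 2)
      ≤ 2 * (((m : ℝ) + 1 + 2) * kappa (m + 2)) * s ^ (m + 1) * (t ^ (m + 2))⁻¹ := by
        gcongr
    _ = kappa (m + 2) * (2 * ((m : ℝ) + 3) * s ^ (m + 1) * (t ^ (m + 2))⁻¹) := by ring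
    _ ≤ kappa (m + 2) * (t ^ (m + 2) * (t ^ (m + 2))⁻¹) := by gcongr
    _ = kappa (m + 2) := by
        rw [mul_inv_cancel₀ (by positivity), mul_one]

theorem rho_bound {s : ℝ} (hs0 : 0 < s) (hs : s < Real.sqrt (2 * Real.pi / Real.exp 1)) :
    ∀ᶠ d : ℕ in atTop, 2 * kappa (d - 1) * s ^ (d - 1) ≤ kappa d / Sausage.maxDensity d :=
  rho_bound_of (fun _ hκ => Sausage.maxDensity_bound hκ) hs0 hs

end Pool.Agent.SX
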